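import Mathlib

/-!
# Cliques of labelled points from pairwise tangent homothets of a centrally symmetric body
-/

namespace C1S

open Finset Pointwise

/-- `f · w`. -/
def dot {D : ℕ} (f w : Fin D → ℝ) : ℝ := ∑ a, f a * w a

/-- A light clique: the last coordinate is positive, and any two members have a label. -/
def Clique {n D : ℕ} (W : Fin n → Fin (D + 1) → ℝ) : Prop :=
  (∀ i, 0 < W i (Fin.last D)) ∧
    ∀ i j, i ≠ j → ∃ f : Fin (D + 1) → ℝ, dot f (W i) = 1 ∧ dot f (W j) = -1 ∧ ∀ k, |dot f (W k)| ≤ 1

/-- A strict clique: the label of `i, j` is tight only at `i` and `j`. -/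
def StrictClique {n D : ℕ} (W : Fin n → Fin (D + 1) → ℝ) : Prop :=
  (∀ i, 0 < W i (Fin.last D)) ∧
    ∀ i j, i ≠ j → ∃ f : Fin (D + 1) → ℝ, dot f (W i) = 1 ∧ dot f (W j) = -1 ∧
      ∀ k, k ≠ i → k ≠ j → |dot f (W k)| < 1

/-- The homothet. -/
def hom {m : ℕ} (K : Set (EuclideanSpace ℝ (Fin m))) (c : ℝ) (x : EuclideanSpace ℝ (Fin m)) :
    Set (EuclideanSpace ℝ (Fin m)) := (fun y => x + c • y) '' K

section

variable {m : ℕ} {K : Set (EuclideanSpace ℝ (Fin m))}

theorem hom_eq (K : Set (EuclideanSpace ℝ (Fin m))) (c : ℝ) (x : EuclideanSpace ℝ (Fin m)) :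
    hom K c x = (fun y => x + y) '' (c • K) := by
  unfold hom
  rw [← Set.image_smul, Set.image_image]

theorem hom_convex (hK : Convex ℝ K) (c : ℝ) (x : EuclideanSpace ℝ (Fin m)) :
    Convex ℝ (hom K c x) := by
  rw [hom_eq]
  exact (hK.smul c).translate x

theorem hom_interior {c : ℝ} (hc : 0 < c) (x : EuclideanSpace ℝ (Fin m)) :
    interior (hom K c x) = hom (interior K) c x := by
  rw [hom_eq, hom_eq, ← interior_smul₀ hc.ne']
  exact ((Homeomorph.addLeft x).image_interior _).symm

theorem hom_closure_interior (hK : Convex ℝ K) (hKc : IsCompact K) (hKi : (interior K).Nonempty)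
    {c : ℝ} (hc : 0 < c) (x : EuclideanSpace ℝ (Fin m)) :
    hom K c x ⊆ closure (interior (hom K c x)) := by
  have hne : (interior (hom K c x)).Nonempty := by
    rw [hom_interior hc]
    exact hKi.image _
  rw [(hom_convex hK c x).closure_interior_eq_closure_of_nonempty_interior hne]
  exact subset_closure

/-- The separating functional of two members, as a vector, with width `1` on both sides of the
centre. -/
theorem exists_sep (hK : Convex ℝ K) (hKc : IsCompact K) (hKi : (interior K).Nonempty)
    {z : EuclideanSpace ℝ (Fin m)} (hz : ∀ y ∈ K, z + z - y ∈ K) {c c' : ℝ} (hc : 0 < c)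
    (hc' : 0 < c') {x x' : EuclideanSpace ℝ (Fin m)} (h1 : (hom K c x ∩ hom K c' x').Nonempty)
    (h2 : interior (hom K c x) ∩ interior (hom K c' x') = ∅) :
    ∃ (u : EuclideanSpace ℝ (Fin m)) (t : ℝ), (∀ y ∈ K, |inner ℝ u (y - z)| ≤ 1) ∧
      (∃ p ∈ K, inner ℝ u (p - z) = 1) ∧ inner ℝ u (x + c • z) - t = c ∧
      inner ℝ u (x' + c' • z) - t = -c' := by
  classical
  have hi1 : (interior (hom K c' x')).Nonempty := by
    rw [hom_interior hc']; exact hKi.image _
  have hi2 : (interior (hom K c x)).Nonempty := by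
    rw [hom_interior hc]; exact hKi.image _
  obtain ⟨φ, r, hφ1, hφ2⟩ := geometric_hahn_banach_open_open
    (hom_convex hK c' x').interior isOpen_interior (hom_convex hK c x).interior isOpen_interior
    (Set.disjoint_iff_inter_eq_empty.2 (by rw [Set.inter_comm]; exact h2))
  have hle1 : ∀ y ∈ hom K c' x', φ y ≤ r := by
    intro y hy
    have : closure (interior (hom K c' x')) ⊆ {y | φ y ≤ r} :=
      closure_minimal (fun y hy => (hφ1 y hy).le) (isClosed_le (by fun_prop) continuous_const)
    exact this (hom_closure_interior hK hKc hKi hc' x' hy)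
  have hle2 : ∀ y ∈ hom K c x, r ≤ φ y := by
    intro y hy
    have : closure (interior (hom K c x)) ⊆ {y | r ≤ φ y} :=
      closure_minimal (fun y hy => (hφ2 y hy).le) (isClosed_le continuous_const (by fun_prop))
    exact this (hom_closure_interior hK hKc hKi hc x hy)
  obtain ⟨q, hq1, hq2⟩ := h1
  have hqr : φ q = r := le_antisymm (hle1 q hq2) (hle2 q hq1)
  -- the maximum of `φ` on `K`
  obtain ⟨y0, hy0⟩ := hKi
  have hne : K.Nonempty := ⟨y0, interior_subset hy0⟩
  obtain ⟨p, hp, hpmax⟩ := hKc.exists_isMaxOn hne (f := fun y => φ y) (by fun_prop)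
  set w := φ p - φ z with hw
  have hmax : ∀ y ∈ K, φ y - φ z ≤ w := fun y hy => by
    have : φ y ≤ φ p := hpmax hy
    linarith
  have hmin : ∀ y ∈ K, -w ≤ φ y - φ z := fun y hy => by
    have := hmax _ (hz y hy)
    rw [map_sub, map_add] at this
    linarith
  have hw0 : 0 < w := by
    have hw00 : 0 ≤ w := by
      have h3 := hmax p hp
      have h4 := hmin p hp
      linarith
    rcases hw00.lt_or_eq with h | h
    · exact h
    · exfalso
      obtain ⟨a, ha⟩ := hi1
      obtain ⟨b, hb⟩ := hi2
      have e1 : φ a = φ (x' + c' • z) := by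
        obtain ⟨y, hy, rfl⟩ := interior_subset ha
        have h3 := hmax y hy
        have h4 := hmin y hy
        simp only [map_add, map_smul, smul_eq_mul]
        have : φ y = φ z := by linarith
        rw [this]
      have e2 : φ b = φ (x + c • z) := by
        obtain ⟨y, hy, rfl⟩ := interior_subset hb
        have h3 := hmax y hy
        have h4 := hmin y hy
        simp only [map_add, map_smul, smul_eq_mul]
        have : φ y = φ z := by linarith
        rw [this]
      have e3 : φ q = φ (x' + c' • z) := by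
        obtain ⟨y, hy, rfl⟩ := hq2
        have h3 := hmax y hy
        have h4 := hmin y hy
        simp only [map_add, map_smul, smul_eq_mul]
        have : φ y = φ z := by linarith
        rw [this]
      have h3 := hφ1 a ha
      rw [e1, ← e3, hqr] at h3
      exact lt_irrefl _ h3
  set u : EuclideanSpace ℝ (Fin m) := w⁻¹ • (InnerProductSpace.toDual ℝ _).symm φ with hu
  have huφ : ∀ y, inner ℝ u y = w⁻¹ * φ y := by
    intro y
    simp only [hu]
    rw [real_inner_smul_left, InnerProductSpace.toDual_symm_apply]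
  have hwi : w⁻¹ * w = 1 := inv_mul_cancel₀ hw0.ne'
  have hwip : 0 < w⁻¹ := inv_pos.2 hw0
  refine ⟨u, w⁻¹ * r, ?_, ⟨p, hp, ?_⟩, ?_, ?_⟩
  · intro y hy
    rw [huφ, map_sub, abs_le]
    have h3 := mul_le_mul_of_nonneg_left (hmax y hy) hwip.le
    have h4 := mul_le_mul_of_nonneg_left (hmin y hy) hwip.le
    constructor <;> linarith
  · rw [huφ, map_sub]
    exact hwi
  · -- `x + c z - c (p - z)` is the lowest point of the first body
    have h3 : r ≤ φ (x + c • (z + z - p)) := hle2 _ ⟨_, hz p hp, rfl⟩
    obtain ⟨y, hy, hyq⟩ := hq1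
    have h4 := hmin y hy
    have h5 : φ q = φ x + c * φ y := by
      rw [← hyq]; simp
    rw [huφ]
    simp only [map_add, map_sub, map_smul, smul_eq_mul] at h3 ⊢
    have h6 : c * (-w) ≤ c * (φ y - φ z) := mul_le_mul_of_nonneg_left h4 hc.le
    have h7 : φ x + c * φ z - r = c * w := by
      apply le_antisymm
      · linarith
      · have : φ p = w + φ z := by linarith
        rw [this] at h3
        linarith
    calc w⁻¹ * (φ x + c * φ z) - w⁻¹ * r = w⁻¹ * (φ x + c * φ z - r) := by ring
      _ = w⁻¹ * (c * w) := by rw [h7]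
      _ = c * (w⁻¹ * w) := by ring
      _ = c := by rw [hwi, mul_one]
  · have h3 : φ (x' + c' • p) ≤ r := hle1 _ ⟨_, hp, rfl⟩
    obtain ⟨y, hy, hyq⟩ := hq2
    have h4 := hmax y hy
    have h5 : φ q = φ x' + c' * φ y := by
      rw [← hyq]; simp
    rw [huφ]
    simp only [map_add, map_smul, smul_eq_mul] at h3 ⊢
    have h6 : c' * (φ y - φ z) ≤ c' * w := mul_le_mul_of_nonneg_left h4 hc'.le
    have h7 : φ x' + c' * φ z - r = -(c' * w) := by
      apply le_antisymm
      · have : φ p = w + φ z := by linarith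
        rw [this] at h3
        linarith
      · linarith
    calc w⁻¹ * (φ x' + c' * φ z) - w⁻¹ * r = w⁻¹ * (φ x' + c' * φ z - r) := by ring
      _ = w⁻¹ * (-(c' * w)) := by rw [h7]
      _ = -(c' * (w⁻¹ * w)) := by ring
      _ = -c' := by rw [hwi, mul_one]

/-- A member which meets both bodies is met by the separating hyperplane. -/
theorem sep_other {z u : EuclideanSpace ℝ (Fin m)} {t : ℝ}
    (hu : ∀ y ∈ K, |inner ℝ u (y - z)| ≤ 1) {c c' : ℝ} (hc : 0 < c) (hc' : 0 < c')
    {x x' : EuclideanSpace ℝ (Fin m)} (h1 : (hom K c x ∩ hom K c' x').Nonempty)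
    (h2 : inner ℝ u (x + c • z) - t = c) : -c' ≤ inner ℝ u (x' + c' • z) - t := by
  obtain ⟨q, ⟨y, hy, hyq⟩, ⟨y', hy', hyq'⟩⟩ := h1
  have h3 := (abs_le.1 (hu y hy)).1
  have h4 := (abs_le.1 (hu y' hy')).2
  have h5 : inner ℝ u q = inner ℝ u x + c * inner ℝ u y := by
    rw [← hyq]
    simp only [inner_add_right, real_inner_smul_right]
  have h6 : inner ℝ u q = inner ℝ u x' + c' * inner ℝ u y' := by
    rw [← hyq']
    simp only [inner_add_right, real_inner_smul_right]
  rw [inner_sub_right] at h3 h4
  rw [inner_add_right, real_inner_smul_right] at h2 ⊢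
  have h7 := mul_le_mul_of_nonneg_left h3 hc.le
  have h8 := mul_le_mul_of_nonneg_left h4 hc'.le
  linarith

theorem sep_other' {z u : EuclideanSpace ℝ (Fin m)} {t : ℝ}
    (hu : ∀ y ∈ K, |inner ℝ u (y - z)| ≤ 1) {c c' : ℝ} (hc : 0 < c) (hc' : 0 < c')
    {x x' : EuclideanSpace ℝ (Fin m)} (h1 : (hom K c x ∩ hom K c' x').Nonempty)
    (h2 : inner ℝ u (x + c • z) - t = -c) : inner ℝ u (x' + c' • z) - t ≤ c' := by
  obtain ⟨q, ⟨y, hy, hyq⟩, ⟨y', hy', hyq'⟩⟩ := h1
  have h3 := (abs_le.1 (hu y hy)).2
  have h4 := (abs_le.1 (hu y' hy')).1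
  have h5 : inner ℝ u q = inner ℝ u x + c * inner ℝ u y := by
    rw [← hyq]
    simp only [inner_add_right, real_inner_smul_right]
  have h6 : inner ℝ u q = inner ℝ u x' + c' * inner ℝ u y' := by
    rw [← hyq']
    simp only [inner_add_right, real_inner_smul_right]
  rw [inner_sub_right] at h3 h4
  rw [inner_add_right, real_inner_smul_right] at h2 ⊢
  have h7 := mul_le_mul_of_nonneg_left h3 hc.le
  have h8 := mul_le_mul_of_nonneg_left h4 hc'.le
  linarith

/-- The vectors of the members. -/
noncomputable def vec {n : ℕ} (c : Fin n → ℝ) (x : Fin n → EuclideanSpace ℝ (Fin m))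
    (z : EuclideanSpace ℝ (Fin m)) (i : Fin n) : Fin (m + 1) → ℝ :=
  Fin.snoc (fun a => (x i a + c i * z a) / c i) (1 / c i)

theorem dot_vec {n : ℕ} {c : Fin n → ℝ} {x : Fin n → EuclideanSpace ℝ (Fin m)}
    {z : EuclideanSpace ℝ (Fin m)} (u : EuclideanSpace ℝ (Fin m)) (t : ℝ) (i : Fin n) :
    dot (Fin.snoc (fun a => u a) (-t) : Fin (m + 1) → ℝ) (vec c x z i) =
      (inner ℝ u (x i + c i • z) - t) / c i := by
  unfold dot vec
  rw [Fin.sum_univ_castSucc]
  simp only [Fin.snoc_castSucc, Fin.snoc_last]
  rw [PiLp.inner_apply]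
  simp only [RCLike.inner_apply, conj_trivial, PiLp.add_apply, PiLp.smul_apply, smul_eq_mul]
  rw [sub_div, Finset.sum_div]
  have e : ∀ a, u a * ((x i a + c i * z a) / c i) = (x i a + c i * z a) * u a / c i := fun a => by
    ring
  simp only [e]
  ring

/-- Two homothets with a common point on a supporting hyperplane where the support point is
unique: one contains the other. -/
theorem nested (hK : Convex ℝ K) {p : EuclideanSpace ℝ (Fin m)} (hp : p ∈ K) {c c' : ℝ}
    (hc : 0 < c) (hcc : c ≤ c') {x x' : EuclideanSpace ℝ (Fin m)} (h : x + c • p = x' + c' • p) :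
    hom K c x ⊆ hom K c' x' := by
  rintro _ ⟨y, hy, rfl⟩
  have hc' : 0 < c' := hc.trans_le hcc
  refine ⟨(1 - c / c') • p + (c / c') • y, hK hp hy (by
    rw [sub_nonneg, div_le_one hc']; exact hcc) (by positivity) (by ring), ?_⟩
  have e : x = x' + c' • p - c • p := by rw [← h]; abel
  simp only
  rw [e, smul_add, smul_smul, smul_smul, mul_sub, mul_one, mul_div_cancel₀ _ hc'.ne', sub_smul]
  abel

/-- **Cliques from tangent homothets.** -/
theorem exists_clique (hK : Convex ℝ K) (hKc : IsCompact K) (hKi : (interior K).Nonempty)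
    {z : EuclideanSpace ℝ (Fin m)} (hz : ∀ y ∈ K, z + z - y ∈ K) {n : ℕ} {c : Fin n → ℝ}
    {x : Fin n → EuclideanSpace ℝ (Fin m)} (hc : ∀ i, 0 < c i)
    (ht : ∀ i j, i ≠ j → (hom K (c i) (x i) ∩ hom K (c j) (x j)).Nonempty ∧
      interior (hom K (c i) (x i)) ∩ interior (hom K (c j) (x j)) = ∅) :
    Clique (vec c x z) ∧ (StrictConvex ℝ K → StrictClique (vec c x z)) := by
  have hlast : ∀ i, 0 < vec c x z i (Fin.last m) := by
    intro i
    unfold vec
    rw [Fin.snoc_last]
    exact one_div_pos.2 (hc i)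
  have hne : K.Nonempty := hKi.mono interior_subset
  have key : ∀ i j, i ≠ j → ∃ (u : EuclideanSpace ℝ (Fin m)) (t : ℝ),
      (∀ y ∈ K, |inner ℝ u (y - z)| ≤ 1) ∧ (∃ p ∈ K, inner ℝ u (p - z) = 1) ∧
      inner ℝ u (x i + c i • z) - t = c i ∧ inner ℝ u (x j + c j • z) - t = - c j ∧
      ∀ k, |inner ℝ u (x k + c k • z) - t| ≤ c k := by
    intro i j hij
    obtain ⟨u, t, h1, h2, h3, h4⟩ := exists_sep hK hKc hKi hz (hc i) (hc j) (ht i j hij).1
      (ht i j hij).2
    refine ⟨u, t, h1, h2, h3, h4, fun k => ?_⟩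
    rw [abs_le]
    constructor
    · by_cases hki : k = i
      · subst hki
        rw [h3]; linarith [hc k]
      · exact sep_other h1 (hc i) (hc k) (ht i k (Ne.symm hki)).1 h3
    · by_cases hkj : k = j
      · subst hkj
        rw [h4]; linarith [hc k]
      · exact sep_other' h1 (hc j) (hc k) (ht j k (Ne.symm hkj)).1 h4
  have hdiv : ∀ k (r : ℝ), |r| ≤ c k → |r / c k| ≤ 1 := fun k r h => by
    rw [abs_div, abs_of_pos (hc k), div_le_one (hc k)]
    exact h
  refine ⟨⟨hlast, fun i j hij => ?_⟩, fun hs => ⟨hlast, fun i j hij => ?_⟩⟩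
  · obtain ⟨u, t, -, -, h3, h4, h5⟩ := key i j hij
    refine ⟨Fin.snoc (fun a => u a) (-t), ?_, ?_, fun k => ?_⟩
    · rw [dot_vec, h3, div_self (hc i).ne']
    · rw [dot_vec, h4, neg_div, div_self (hc j).ne']
    · rw [dot_vec]
      exact hdiv k _ (h5 k)
  · obtain ⟨u, t, h1, ⟨p, hp, hp1⟩, h3, h4, h5⟩ := key i j hij
    -- uniqueness of the points of support
    have huniq : ∀ y ∈ K, inner ℝ u (y - z) = 1 → y = p := by
      intro y hy hy1
      by_contra hne'
      have hmid := hs hy hp hne' (a := 1 / 2) (b := 1 / 2) (by norm_num) (by norm_num)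
        (by norm_num)
      set q := (1 / 2 : ℝ) • y + (1 / 2 : ℝ) • p with hq
      have hqu : inner ℝ u (q - z) = 1 := by
        have : q - z = (1 / 2 : ℝ) • (y - z) + (1 / 2 : ℝ) • (p - z) := by
          rw [hq]; module
        rw [this, inner_add_right, real_inner_smul_right, real_inner_smul_right, hy1, hp1]
        norm_num
      have hu0 : u ≠ 0 := by
        intro h0
        rw [h0, inner_zero_left] at hp1
        norm_num at hp1
      obtain ⟨ε, hε, hball⟩ := Metric.isOpen_iff.1 isOpen_interior q hmid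
      have hun : 0 < ‖u‖ := norm_pos_iff.2 hu0
      have hmem : q + (ε / (2 * ‖u‖)) • u ∈ K := by
        apply interior_subset
        apply hball
        rw [Metric.mem_ball, dist_eq_norm, add_sub_cancel_left, norm_smul, Real.norm_eq_abs,
          abs_of_pos (by positivity)]
        have : ε / (2 * ‖u‖) * ‖u‖ = ε / 2 := by field_simp
        rw [this]; linarith
      have h6 := (abs_le.1 (h1 _ hmem)).2
      have h7 : q + (ε / (2 * ‖u‖)) • u - z = (q - z) + (ε / (2 * ‖u‖)) • u := by abel
      rw [h7, inner_add_right, hqu, real_inner_smul_right, real_inner_self_eq_norm_mul_norm] at h6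
      have : 0 < ε / (2 * ‖u‖) * (‖u‖ * ‖u‖) := by positivity
      linarith
    have huniq' : ∀ y ∈ K, inner ℝ u (y - z) = -1 → y = z + z - p := by
      intro y hy hy1
      have h6 := huniq _ (hz y hy) (by
        have : z + z - y - z = -(y - z) := by abel
        rw [this, inner_neg_right, hy1]; norm_num)
      rw [← h6]; abel
    have hp' : z + z - p ∈ K := hz p hp
    -- two bodies with nested position are not tangent
    have hnest : ∀ a b, a ≠ b → ∀ q ∈ K, x a + c a • q = x b + c b • q → False := by
      have hmain : ∀ a b, a ≠ b → c a ≤ c b → ∀ q ∈ K, x a + c a • q = x b + c b • q → False := by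
        intro a b hab hle q hq he
        have h6 := nested hK hq (hc a) hle he
        have h7 := (ht a b hab).2
        have h8 : (interior (hom K (c a) (x a))).Nonempty := by
          rw [hom_interior (hc a)]
          exact hKi.image _
        rw [Set.inter_eq_left.2 (interior_mono h6)] at h7
        exact h8.ne_empty h7
      intro a b hab q hq he
      rcases le_total (c a) (c b) with h | h
      · exact hmain a b hab h q hq he
      · exact hmain b a (Ne.symm hab) h q hq he.symm
    refine ⟨Fin.snoc (fun a => u a) (-t), ?_, ?_, fun k hki hkj => ?_⟩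
    · rw [dot_vec, h3, div_self (hc i).ne']
    · rw [dot_vec, h4, neg_div, div_self (hc j).ne']
    · rw [dot_vec]
      have hle := hdiv k _ (h5 k)
      refine lt_of_le_of_ne hle fun heq => ?_
      have hck := hc k
      have hcases : inner ℝ u (x k + c k • z) - t = c k ∨ inner ℝ u (x k + c k • z) - t = -c k := by
        rw [abs_div, abs_of_pos hck, div_eq_one_iff_eq hck.ne'] at heq
        exact (abs_eq hck.le).1 heq
      -- the point of support of the lower side
      have hlow : ∀ a b, a ≠ b → inner ℝ u (x a + c a • z) - t = c a →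
          inner ℝ u (x b + c b • z) - t = -c b →
          x a + c a • (z + z - p) = x b + c b • p := by
        intro a b hab ha hb
        obtain ⟨q, ⟨y, hy, hyq⟩, ⟨y', hy', hyq'⟩⟩ := (ht a b hab).1
        have h6 := (abs_le.1 (h1 y hy)).1
        have h7 := (abs_le.1 (h1 y' hy')).2
        have h8 : inner ℝ u q = inner ℝ u (x a) + c a * inner ℝ u y := by
          rw [← hyq]
          simp only [inner_add_right, real_inner_smul_right]
        have h9 : inner ℝ u q = inner ℝ u (x b) + c b * inner ℝ u y' := by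
          rw [← hyq']
          simp only [inner_add_right, real_inner_smul_right]
        rw [inner_add_right, real_inner_smul_right] at ha hb
        rw [inner_sub_right] at h6 h7
        have hca := hc a
        have hcb := hc b
        have h10 : c a * (inner ℝ u y - inner ℝ u z + 1) + c b * (1 - (inner ℝ u y' - inner ℝ u z))
            = 0 := by linarith
        have h11 : 0 ≤ c a * (inner ℝ u y - inner ℝ u z + 1) := mul_nonneg hca.le (by linarith)
        have h12 : 0 ≤ c b * (1 - (inner ℝ u y' - inner ℝ u z)) := mul_nonneg hcb.le (by linarith)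
        have h13 : inner ℝ u y - inner ℝ u z + 1 = 0 := by
          rcases mul_eq_zero.1 (by linarith : c a * (inner ℝ u y - inner ℝ u z + 1) = 0) with h | h
          · exact absurd h hca.ne'
          · exact h
        have h14 : 1 - (inner ℝ u y' - inner ℝ u z) = 0 := by
          rcases mul_eq_zero.1 (by linarith : c b * (1 - (inner ℝ u y' - inner ℝ u z)) = 0)
            with h | h
          · exact absurd h hcb.ne'
          · exact h
        have h15 := huniq' y hy (by rw [inner_sub_right]; linarith)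
        have h16 := huniq y' hy' (by rw [inner_sub_right]; linarith)
        rw [← h15, ← h16]
        exact hyq.trans hyq'.symm
      rcases hcases with hk | hk
      · have e1 := hlow i j hij h3 h4
        have e2 := hlow k j hkj hk h4
        exact hnest i k (Ne.symm hki) _ hp' (e1.trans e2.symm)
      · have e1 := hlow i j hij h3 h4
        have e2 := hlow i k (Ne.symm hki) h3 hk
        exact hnest j k (Ne.symm hkj) _ hp (e1.symm.trans e2)

end

end C1S
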