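import Pool.Agent.C1S.Cl

/-!
# Perturbation of cliques to general position
-/

namespace C1S

open Finset Filter Topology Matrix Polynomial

/-- The matrix of the members `s 0, ..., s D`. -/
def mat {n D : ℕ} (W : Fin n → Fin (D + 1) → ℝ) (s : Fin (D + 1) → Fin n) :
    Matrix (Fin (D + 1)) (Fin (D + 1)) ℝ := Matrix.of fun r => W (s r)

/-- The perturbed vectors. -/
def pert {n D : ℕ} (W : Fin n → Fin (D + 1) → ℝ) (ε : ℝ) (i : Fin n) (a : Fin (D + 1)) : ℝ :=
  W i a + ε * ((i : ℕ) : ℝ) ^ (a : ℕ)

theorem continuous_pert {n D : ℕ} (W : Fin n → Fin (D + 1) → ℝ) (i : Fin n) (a : Fin (D + 1)) :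
    Continuous fun ε => pert W ε i a := by
  unfold pert
  fun_prop

theorem continuous_dot_pert {n D : ℕ} (W : Fin n → Fin (D + 1) → ℝ) (f : Fin (D + 1) → ℝ)
    (i : Fin n) : Continuous fun ε => dot f (pert W ε i) := by
  unfold dot
  exact continuous_finset_sum _ fun a _ => (continuous_const.mul (continuous_pert W i a))

theorem pert_zero {n D : ℕ} (W : Fin n → Fin (D + 1) → ℝ) : pert W 0 = W := by
  funext i a
  simp [pert]

theorem continuous_det {n D : ℕ} (W : Fin n → Fin (D + 1) → ℝ) (s : Fin (D + 1) → Fin n) :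
    Continuous fun ε => (mat (pert W ε) s).det := by
  apply Continuous.matrix_det
  refine continuous_matrix fun r a => ?_
  exact continuous_pert W (s r) a

theorem eventually_det_ne {n D : ℕ} (W : Fin n → Fin (D + 1) → ℝ) (s : Fin (D + 1) → Fin n)
    (hs : Function.Injective s) : ∀ᶠ ε in 𝓝[>] (0 : ℝ), (mat (pert W ε) s).det ≠ 0 := by
  set B : Matrix (Fin (D + 1)) (Fin (D + 1)) ℝ := Matrix.vandermonde fun r => ((s r : ℕ) : ℝ)
    with hB
  have hdB : B.det ≠ 0 := by
    rw [hB, Matrix.det_vandermonde_ne_zero_iff]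
    intro a b hab
    apply hs
    have : ((s a : ℕ) : ℝ) = ((s b : ℕ) : ℝ) := hab
    exact Fin.ext (by exact_mod_cast this)
  set P : ℝ[X] := det ((X : ℝ[X]) • B.map C + (mat W s).map C) with hP
  have hcoeff := Polynomial.coeff_det_X_add_C_card B (mat W s)
  have hP0 : P ≠ 0 := by
    intro h0
    rw [← hP, h0, Polynomial.coeff_zero] at hcoeff
    exact hdB hcoeff.symm
  have heval : ∀ ε : ℝ, P.eval ε = (mat (pert W ε) s).det := by
    intro ε
    rw [hP, ← Polynomial.coe_evalRingHom, RingHom.map_det]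
    congr 1
    ext r a
    simp [mat, pert, hB, Matrix.vandermonde_apply]
    ring
  have hfin : (P.rootSet ℝ \ {0}).Finite := (P.rootSet_finite ℝ).subset Set.diff_subset
  have h1 : ∀ᶠ ε in 𝓝 (0 : ℝ), ε ∈ (P.rootSet ℝ \ {0})ᶜ :=
    hfin.isClosed.isOpen_compl.mem_nhds (by simp)
  have h2 : ∀ᶠ ε in 𝓝[>] (0 : ℝ), ε ∈ (P.rootSet ℝ \ {0})ᶜ := nhdsWithin_le_nhds h1
  filter_upwards [h2, self_mem_nhdsWithin] with ε hε hpos
  intro h0
  apply hε
  refine ⟨?_, ?_⟩
  · rw [Polynomial.mem_rootSet_of_ne hP0, Polynomial.coe_aeval_eq_eval, heval]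
    exact h0
  · exact (ne_of_gt hpos : ε ≠ 0)

theorem eventually_general {n D : ℕ} (W : Fin n → Fin (D + 1) → ℝ) :
    ∀ᶠ ε in 𝓝[>] (0 : ℝ), ∀ s : Fin (D + 1) → Fin n, Function.Injective s →
      (mat (pert W ε) s).det ≠ 0 := by
  rw [Filter.eventually_all]
  intro s
  by_cases hs : Function.Injective s
  · filter_upwards [eventually_det_ne W s hs] with ε hε _
    exact hε
  · exact Filter.Eventually.of_forall fun ε h => absurd h hs

theorem eventually_sign {n D : ℕ} (W : Fin n → Fin (D + 1) → ℝ) :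
    ∀ᶠ ε in 𝓝 (0 : ℝ), ∀ s : Fin (D + 1) → Fin n, (mat W s).det ≠ 0 →
      0 < (mat W s).det * (mat (pert W ε) s).det := by
  rw [Filter.eventually_all]
  intro s
  by_cases hs : (mat W s).det = 0
  · exact Filter.Eventually.of_forall fun ε h => absurd hs h
  · have hc : Continuous fun ε => (mat W s).det * (mat (pert W ε) s).det :=
      continuous_const.mul (continuous_det W s)
    have h0 : 0 < (mat W s).det * (mat (pert W 0) s).det := by
      rw [pert_zero]
      exact mul_self_pos.2 hs
    filter_upwards [hc.continuousAt.eventually (lt_mem_nhds h0)] with ε hε _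
    exact hε

theorem eventually_last {n D : ℕ} (W : Fin n → Fin (D + 1) → ℝ)
    (hW : ∀ i, 0 < W i (Fin.last D)) :
    ∀ᶠ ε in 𝓝 (0 : ℝ), ∀ i, 0 < pert W ε i (Fin.last D) := by
  rw [Filter.eventually_all]
  intro i
  have h0 : 0 < pert W 0 i (Fin.last D) := by rw [pert_zero]; exact hW i
  exact (continuous_pert W i (Fin.last D)).continuousAt.eventually (lt_mem_nhds h0)

theorem eventually_strict {n D : ℕ} {W : Fin n → Fin (D + 1) → ℝ} (hW : StrictClique W) :
    ∀ᶠ ε in 𝓝 (0 : ℝ), StrictClique (pert W ε) := by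
  have h1 : ∀ᶠ ε in 𝓝 (0 : ℝ), ∀ i j, i ≠ j → ∃ f : Fin (D + 1) → ℝ,
      dot f (pert W ε i) = 1 ∧ dot f (pert W ε j) = -1 ∧
      ∀ k, k ≠ i → k ≠ j → |dot f (pert W ε k)| < 1 := by
    rw [Filter.eventually_all]
    intro i
    rw [Filter.eventually_all]
    intro j
    by_cases hij : i = j
    · exact Filter.Eventually.of_forall fun ε h => absurd hij h
    obtain ⟨f, hf1, hf2, hf3⟩ := hW.2 i j hij
    set a : ℝ → ℝ := fun ε => dot f (pert W ε i) with ha
    set b : ℝ → ℝ := fun ε => dot f (pert W ε j) with hb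
    set y : Fin n → ℝ → ℝ := fun k ε => pert W ε k (Fin.last D) with hy
    set Δ : ℝ → ℝ := fun ε => a ε * y j ε - b ε * y i ε with hΔ
    have hac : Continuous a := continuous_dot_pert W f i
    have hbc : Continuous b := continuous_dot_pert W f j
    have hyc : ∀ k, Continuous (y k) := fun k => continuous_pert W k _
    have hΔc : Continuous Δ := (hac.mul (hyc j)).sub (hbc.mul (hyc i))
    have hy0 : ∀ k, 0 < y k 0 := fun k => by simp only [hy, pert_zero]; exact hW.1 k
    have ha0 : a 0 = 1 := by simp only [ha, pert_zero]; exact hf1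
    have hb0 : b 0 = -1 := by simp only [hb, pert_zero]; exact hf2
    have hΔ0 : 0 < Δ 0 := by
      simp only [hΔ, ha0, hb0]
      linarith [hy0 i, hy0 j]
    have hE1 : ∀ᶠ ε in 𝓝 (0 : ℝ), 0 < Δ ε := hΔc.continuousAt.eventually (lt_mem_nhds hΔ0)
    have hE2 : ∀ᶠ ε in 𝓝 (0 : ℝ), ∀ k, k ≠ i → k ≠ j →
        |(y i ε + y j ε) / Δ ε * dot f (pert W ε k) + (-b ε - a ε) / Δ ε * y k ε| < 1 := by
      rw [Filter.eventually_all]
      intro k
      by_cases hki : k = i
      · exact Filter.Eventually.of_forall fun ε h => absurd hki h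
      by_cases hkj : k = j
      · exact Filter.Eventually.of_forall fun ε _ h => absurd hkj h
      have hcont : ContinuousAt (fun ε => |(y i ε + y j ε) / Δ ε * dot f (pert W ε k) +
          (-b ε - a ε) / Δ ε * y k ε|) 0 := by
        apply ContinuousAt.abs
        apply ContinuousAt.add
        · exact ((((hyc i).add (hyc j)).continuousAt).div hΔc.continuousAt hΔ0.ne').mul
            (continuous_dot_pert W f k).continuousAt
        · exact (((hbc.neg.sub hac).continuousAt).div hΔc.continuousAt hΔ0.ne').mul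
            (hyc k).continuousAt
      have hval : |(y i 0 + y j 0) / Δ 0 * dot f (pert W 0 k) + (-b 0 - a 0) / Δ 0 * y k 0| < 1 := by
        have e1 : (y i 0 + y j 0) / Δ 0 = 1 := by
          rw [div_eq_one_iff_eq hΔ0.ne']
          simp only [hΔ, ha0, hb0]; ring
        rw [e1, ha0, hb0, pert_zero]
        simpa using hf3 k hki hkj
      filter_upwards [hcont.eventually (gt_mem_nhds hval)] with ε hε _ _
      exact hε
    filter_upwards [hE1, hE2] with ε hε1 hε2 _
    set lam := (y i ε + y j ε) / Δ ε with hlam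
    set mu := (-b ε - a ε) / Δ ε with hmu
    have hdot : ∀ k, dot (fun c => lam * f c + mu * (if c = Fin.last D then 1 else 0))
        (pert W ε k) = lam * dot f (pert W ε k) + mu * y k ε := by
      intro k
      unfold dot
      simp only [add_mul, Finset.sum_add_distrib, mul_assoc, ← Finset.mul_sum, ite_mul, one_mul,
        zero_mul, mul_ite, mul_zero, Finset.sum_ite_eq', mem_univ, if_true, hy]
    refine ⟨_, (hdot i).trans ?_, (hdot j).trans ?_, fun k hki hkj => ?_⟩
    · have : lam * a ε + mu * y i ε = 1 := by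
        simp only [hlam, hmu]
        field_simp
        simp only [hΔ]
        ring
      exact this
    · have : lam * b ε + mu * y j ε = -1 := by
        simp only [hlam, hmu]
        field_simp
        simp only [hΔ]
        ring
      exact this
    · rw [hdot k]
      exact hε2 k hki hkj
  filter_upwards [h1, eventually_last W hW.1] with ε h1 h2
  exact ⟨h2, h1⟩

/-- **Perturbation.**  `W'` is in general position; nonzero determinants keep their signs; the last
coordinates stay positive, and strict cliques stay strict cliques. -/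
theorem exists_pert {n D : ℕ} (W : Fin n → Fin (D + 1) → ℝ) (hW : ∀ i, 0 < W i (Fin.last D)) :
    ∃ W' : Fin n → Fin (D + 1) → ℝ, (∀ i, 0 < W' i (Fin.last D)) ∧
      (∀ s : Fin (D + 1) → Fin n, Function.Injective s → (mat W' s).det ≠ 0) ∧
      (∀ s : Fin (D + 1) → Fin n, (mat W s).det ≠ 0 → 0 < (mat W s).det * (mat W' s).det) ∧
      (StrictClique W → StrictClique W') := by
  by_cases hs : StrictClique W
  · have h := (eventually_general W).and (nhdsWithin_le_nhds
      ((eventually_sign W).and ((eventually_last W hW).and (eventually_strict hs))))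
    obtain ⟨ε, h1, h2, h3, h4⟩ := h.exists
    exact ⟨pert W ε, h3, h1, h2, fun _ => h4⟩
  · have h := (eventually_general W).and (nhdsWithin_le_nhds
      ((eventually_sign W).and (eventually_last W hW)))
    obtain ⟨ε, h1, h2, h3⟩ := h.exists
    exact ⟨pert W ε, h3, h1, h2, fun h => absurd h hs⟩

end C1S
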