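import Pool.Agent.C1S.Pert

/-!
# The inequality (T) for relations of a clique
-/

namespace C1S

open Finset

theorem dot_rel {n D : ℕ} {W : Fin n → Fin D → ℝ} {c : Fin n → ℝ}
    (hc : ∀ a, ∑ k, c k * W k a = 0) (f : Fin D → ℝ) : ∑ k, c k * dot f (W k) = 0 := by
  have : ∑ k, c k * dot f (W k) = ∑ a, f a * ∑ k, c k * W k a := by
    unfold dot
    simp only [Finset.mul_sum]
    rw [Finset.sum_comm]
    refine Finset.sum_congr rfl fun a _ => Finset.sum_congr rfl fun k _ => by ring
  rw [this]
  simp [hc]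

/-- (T) for cliques. -/
theorem Clique.rel {n D : ℕ} {W : Fin n → Fin (D + 1) → ℝ} (hW : Clique W) {c : Fin n → ℝ}
    (hc : ∀ a, ∑ k, c k * W k a = 0) {i j : Fin n} (hi : 0 < c i) (hj : c j < 0) :
    c i - c j ≤ ∑ k ∈ (univ.erase i).erase j, |c k| := by
  classical
  have hij : i ≠ j := fun h => by subst h; linarith
  obtain ⟨f, h1, h2, h3⟩ := hW.2 i j hij
  have h := dot_rel hc f
  have hji : j ∈ univ.erase i := Finset.mem_erase.2 ⟨Ne.symm hij, mem_univ j⟩
  rw [← Finset.add_sum_erase _ _ (mem_univ i), ← Finset.add_sum_erase _ _ hji, h1, h2] at h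
  have h4 : -(∑ k ∈ (univ.erase i).erase j, c k * dot f (W k)) ≤
      ∑ k ∈ (univ.erase i).erase j, |c k| := by
    rw [← Finset.sum_neg_distrib]
    refine Finset.sum_le_sum fun k _ => ?_
    have h5 := neg_le_abs (c k * dot f (W k))
    rw [abs_mul] at h5
    nlinarith [h3 k, abs_nonneg (c k)]
  linarith

/-- Strict (T) for strict cliques. -/
theorem StrictClique.rel {n D : ℕ} {W : Fin n → Fin (D + 1) → ℝ} (hW : StrictClique W)
    {c : Fin n → ℝ} (hc : ∀ a, ∑ k, c k * W k a = 0) {i j : Fin n} (hi : 0 < c i) (hj : c j < 0) :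
    c i - c j < ∑ k ∈ (univ.erase i).erase j, |c k| := by
  classical
  have hij : i ≠ j := fun h => by subst h; linarith
  obtain ⟨f, h1, h2, h3⟩ := hW.2 i j hij
  have h := dot_rel hc f
  have hji : j ∈ univ.erase i := Finset.mem_erase.2 ⟨Ne.symm hij, mem_univ j⟩
  rw [← Finset.add_sum_erase _ _ (mem_univ i), ← Finset.add_sum_erase _ _ hji, h1, h2] at h
  have hle : ∀ k ∈ (univ.erase i).erase j, -(c k * dot f (W k)) ≤ |c k| := by
    intro k hk
    have hkj := Finset.ne_of_mem_erase hk
    have hki := Finset.ne_of_mem_erase (Finset.mem_of_mem_erase hk)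
    have h5 := neg_le_abs (c k * dot f (W k))
    rw [abs_mul] at h5
    nlinarith [h3 k hki hkj, abs_nonneg (c k)]
  by_cases hall : ∀ k ∈ (univ.erase i).erase j, c k = 0
  · rw [Finset.sum_eq_zero (fun k hk => by rw [hall k hk, zero_mul])] at h
    linarith
  · push Not at hall
    obtain ⟨k0, hk0, hne⟩ := hall
    have h4 : -(∑ k ∈ (univ.erase i).erase j, c k * dot f (W k)) <
        ∑ k ∈ (univ.erase i).erase j, |c k| := by
      rw [← Finset.sum_neg_distrib]
      refine Finset.sum_lt_sum hle ⟨k0, hk0, ?_⟩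
      have hkj := Finset.ne_of_mem_erase hk0
      have hki := Finset.ne_of_mem_erase (Finset.mem_of_mem_erase hk0)
      have h5 := neg_le_abs (c k0 * dot f (W k0))
      rw [abs_mul] at h5
      have h6 := h3 k0 hki hkj
      have h7 : 0 < |c k0| := abs_pos.2 hne
      nlinarith
    linarith

/-- The members of a relation which is supported on an indexed subfamily. -/
theorem rel_extend {n p D : ℕ} {W : Fin n → Fin D → ℝ} (s : Fin p → Fin n)
    (hs : Function.Injective s) (b : Fin p → ℝ) (hb : ∀ a, ∑ r, b r * W (s r) a = 0) :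
    ∃ c : Fin n → ℝ, (∀ a, ∑ k, c k * W k a = 0) ∧ (∀ r, c (s r) = b r) ∧
      ∀ k, (∀ r, s r ≠ k) → c k = 0 := by
  classical
  refine ⟨fun k => ∑ r, if s r = k then b r else 0, fun a => ?_, fun r => ?_, fun k hk => ?_⟩
  · refine Eq.trans ?_ (hb a)
    show ∑ k, (∑ r, if s r = k then b r else 0) * W k a = ∑ r, b r * W (s r) a
    simp only [Finset.sum_mul]
    rw [Finset.sum_comm]
    refine Finset.sum_congr rfl fun r _ => ?_
    rw [Finset.sum_eq_single (s r)]
    · rw [if_pos rfl]
    · intro k _ hk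
      rw [if_neg (Ne.symm hk), zero_mul]
    · intro h
      exact absurd (mem_univ _) h
  · show (∑ r', if s r' = s r then b r' else 0) = b r
    rw [Finset.sum_eq_single r]
    · rw [if_pos rfl]
    · intro r' _ hr'
      rw [if_neg fun h => hr' (hs h)]
    · intro h
      exact absurd (mem_univ r) h
  · show (∑ r, if s r = k then b r else 0) = 0
    exact Finset.sum_eq_zero fun r _ => if_neg (hk r)

end C1S
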