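import Pool.Agent.C1S.Rel

/-!
# Strict cliques from separating planes which meet the interiors of the other members
-/

namespace C1S

open Finset

variable {m : ℕ} {K : Set (EuclideanSpace ℝ (Fin m))}

theorem hom_mem {c : ℝ} {x y : EuclideanSpace ℝ (Fin m)} (h : y ∈ hom K c x) :
    ∃ q ∈ K, y = x + c • q := by
  obtain ⟨q, hq, rfl⟩ := h
  exact ⟨q, hq, rfl⟩

/-- **Strict cliques.**  Any two members are separated by a plane which meets the interiors of all
other members. -/
theorem strict_of_sep (hKc : IsCompact K) (hKi : (interior K).Nonempty)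
    {z : EuclideanSpace ℝ (Fin m)} (hz : ∀ y ∈ K, z + z - y ∈ K) {n : ℕ} {c : Fin n → ℝ}
    {x : Fin n → EuclideanSpace ℝ (Fin m)} (hc : ∀ i, 0 < c i)
    (hm : ∀ i j, i ≠ j → (hom K (c i) (x i) ∩ hom K (c j) (x j)).Nonempty)
    (hsep : ∀ i j, i ≠ j → ∃ (u : EuclideanSpace ℝ (Fin m)) (t : ℝ), u ≠ 0 ∧
      (∀ y ∈ hom K (c i) (x i), t ≤ inner ℝ u y) ∧
      (∀ y ∈ hom K (c j) (x j), inner ℝ u y ≤ t) ∧
      ∀ k, k ≠ i → k ≠ j → ∃ y ∈ interior (hom K (c k) (x k)), inner ℝ u y = t) :
    StrictClique (vec c x z) := by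
  refine ⟨fun i => ?_, fun i j hij => ?_⟩
  · unfold vec
    rw [Fin.snoc_last]
    exact one_div_pos.2 (hc i)
  obtain ⟨u, t, hu0, h1, h2, h3⟩ := hsep i j hij
  have hne : K.Nonempty := hKi.mono interior_subset
  obtain ⟨p, hp, hpmax⟩ := hKc.exists_isMaxOn hne (f := fun y => inner ℝ u y) (by fun_prop)
  set h := inner ℝ u p - inner ℝ u z with hh
  have hmax : ∀ y ∈ K, inner ℝ u y - inner ℝ u z ≤ h := fun y hy => by
    have : inner ℝ u y ≤ inner ℝ u p := hpmax hy
    linarith
  have hmin : ∀ y ∈ K, -h ≤ inner ℝ u y - inner ℝ u z := fun y hy => by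
    have := hmax _ (hz y hy)
    rw [inner_sub_right, inner_add_right] at this
    linarith
  -- interior points have strictly smaller values
  have hstrict : ∀ y ∈ interior K, |inner ℝ u y - inner ℝ u z| < h := by
    intro y hy
    obtain ⟨ε, hε, hball⟩ := Metric.isOpen_iff.1 isOpen_interior y hy
    have hun : 0 < ‖u‖ := norm_pos_iff.2 hu0
    have hmem : ∀ s : ℝ, |s| = ε / (2 * ‖u‖) → y + s • u ∈ K := by
      intro s hs
      apply interior_subset
      apply hball
      rw [Metric.mem_ball, dist_eq_norm, add_sub_cancel_left, norm_smul, Real.norm_eq_abs, hs]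
      have : ε / (2 * ‖u‖) * ‖u‖ = ε / 2 := by field_simp
      rw [this]; linarith
    have hpos : 0 < ε / (2 * ‖u‖) := by positivity
    have h4 := hmax _ (hmem (ε / (2 * ‖u‖)) (abs_of_pos hpos))
    have h5 := hmin _ (hmem (-(ε / (2 * ‖u‖))) (by rw [abs_neg, abs_of_pos hpos]))
    rw [inner_add_right, real_inner_smul_right, real_inner_self_eq_norm_mul_norm] at h4 h5
    have h6 : 0 < ε / (2 * ‖u‖) * (‖u‖ * ‖u‖) := by positivity
    rw [abs_lt]
    constructor <;> linarith
  have hpos : 0 < h := by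
    obtain ⟨y, hy⟩ := hKi
    exact (abs_nonneg _).trans_lt (hstrict y hy)
  -- the values at the centres
  have e1 : ∀ k, inner ℝ u (x k + c k • z) = inner ℝ u (x k) + c k * inner ℝ u z := fun k => by
    rw [inner_add_right, real_inner_smul_right]
  have hpz : z + z - p ∈ K := hz p hp
  have hi1 : t ≤ inner ℝ u (x i + c i • z) - c i * h := by
    have := h1 _ ⟨_, hpz, rfl⟩
    rw [inner_add_right, real_inner_smul_right, inner_sub_right, inner_add_right] at this
    rw [e1]
    have e : inner ℝ u p = h + inner ℝ u z := by rw [hh]; ring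
    rw [e] at this
    linarith
  have hj1 : inner ℝ u (x j + c j • z) + c j * h ≤ t := by
    have := h2 _ ⟨_, hp, rfl⟩
    rw [inner_add_right, real_inner_smul_right] at this
    rw [e1]
    have e : inner ℝ u p = h + inner ℝ u z := by rw [hh]; ring
    rw [e] at this
    linarith
  obtain ⟨q, hq1, hq2⟩ := hm i j hij
  obtain ⟨y, hy, hyq⟩ := hom_mem hq1
  obtain ⟨y', hy', hyq'⟩ := hom_mem hq2
  have hci := hc i
  have hcj := hc j
  have hi2 : inner ℝ u (x i + c i • z) - c i * h ≤ t := by
    have h4 := h2 q hq2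
    rw [hyq, inner_add_right, real_inner_smul_right] at h4
    have h5 := mul_le_mul_of_nonneg_left (hmin y hy) hci.le
    rw [e1]
    linarith
  have hj2 : t ≤ inner ℝ u (x j + c j • z) + c j * h := by
    have h4 := h1 q hq1
    rw [hyq', inner_add_right, real_inner_smul_right] at h4
    have h5 := mul_le_mul_of_nonneg_left (hmax y' hy') hcj.le
    rw [e1]
    linarith
  have hi3 : inner ℝ u (x i + c i • z) - t = c i * h := by linarith
  have hj3 : inner ℝ u (x j + c j • z) - t = -(c j * h) := by linarith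
  have hdot : ∀ k, dot (Fin.snoc (fun a => (h⁻¹ • u) a) (-(h⁻¹ * t)) : Fin (m + 1) → ℝ)
      (vec c x z k) = (inner ℝ u (x k + c k • z) - t) / (c k * h) := by
    intro k
    rw [dot_vec, real_inner_smul_left]
    have := (hc k).ne'
    field_simp
  refine ⟨_, (hdot i).trans ?_, (hdot j).trans ?_, fun k hki hkj => ?_⟩
  · rw [hi3, div_self (by positivity)]
  · rw [hj3, neg_div, div_self (by positivity)]
  · rw [hdot k]
    obtain ⟨y, hy, hyt⟩ := h3 k hki hkj
    rw [hom_interior (hc k)] at hy
    obtain ⟨q, hq, rfl⟩ := hom_mem hy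
    have hck := hc k
    have h4 := hstrict q hq
    rw [inner_add_right, real_inner_smul_right] at hyt
    have h5 : inner ℝ u (x k + c k • z) - t = -(c k * (inner ℝ u q - inner ℝ u z)) := by
      rw [e1]; linarith
    rw [h5, abs_div, abs_neg, abs_mul, abs_of_pos hck, abs_of_pos (by positivity : 0 < c k * h),
      div_lt_one (by positivity)]
    exact mul_lt_mul_of_pos_left h4 hck

end C1S
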