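import Mathlib

/-! The strict six point lemma: six vectors of `R^4` that form a strict light clique are not
in convex position.  See `C1S.six_relations` (two relations) and `C1S.six_vectors`. -/

namespace C1S

open Finset

/-- Sign patterns of six numbers all of whose circuits split `2 + 3`. -/
theorem pattern (b : Fin 6 → Bool)
    (h : ∀ l : Fin 6, (univ.filter (fun j : Fin 6 => (j < l ∧ b j = false) ∨
        (l < j ∧ b j = true))).card = 2 ∨ (univ.filter (fun j : Fin 6 =>
        (j < l ∧ b j = false) ∨ (l < j ∧ b j = true))).card = 3) :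
    (b 1 ≠ b 2 ∧ b 3 ≠ b 4 ∧ b 5 = b 0) ∨ (b 0 ≠ b 1 ∧ b 2 ≠ b 3 ∧ b 4 ≠ b 5) := by
  revert b
  decide

/-- Strict triangle condition of a relation: for `p ≠ m` the two coefficients `c p`, `-c m`
do not balance the others. -/
def Tri (c : Fin 6 → ℝ) : Prop :=
  ∀ p m : Fin 6, p ≠ m → c p - c m + |c p| + |c m| < ∑ j, |c j|

/-- Two coefficients of opposite sign are less than half of the total. -/
theorem Tri.opp {c : Fin 6 → ℝ} (h : Tri c) {p m : Fin 6} (hpm : p ≠ m)
    (hs : (0 < c p ∧ c m < 0) ∨ (c p < 0 ∧ 0 < c m)) :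
    2 * |c p| + 2 * |c m| < ∑ j, |c j| := by
  rcases hs with ⟨h3, h4⟩ | ⟨h3, h4⟩
  · have h1 := h p m hpm
    rw [abs_of_pos h3, abs_of_neg h4] at h1 ⊢; linarith
  · have h1 := h m p (Ne.symm hpm)
    rw [abs_of_neg h3, abs_of_pos h4] at h1 ⊢; linarith

/-- The relation with the `l`-th coefficient `0` in affine form. -/
def rel (q n : Fin 6 → ℝ) (l : Fin 6) : Fin 6 → ℝ := fun j => n j * (q j - q l)

theorem rel_abs_lt {q n : Fin 6 → ℝ} (hq : StrictMono q) {l j : Fin 6} (h : j < l) :
    |rel q n l j| = |n j| * (q l - q j) := by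
  unfold rel
  rw [abs_mul, abs_sub_comm, abs_of_pos (sub_pos.2 (hq h))]

theorem rel_abs_gt {q n : Fin 6 → ℝ} (hq : StrictMono q) {l j : Fin 6} (h : l < j) :
    |rel q n l j| = |n j| * (q j - q l) := by
  unfold rel
  rw [abs_mul, abs_of_pos (sub_pos.2 (hq h))]

theorem rel_self (q n : Fin 6 → ℝ) (l : Fin 6) : |rel q n l l| = 0 := by
  unfold rel
  simp

theorem rel_pos_iff {q n : Fin 6 → ℝ} (hq : StrictMono q) (hn : ∀ i, n i ≠ 0) (l j : Fin 6) :
    0 < rel q n l j ↔ (j < l ∧ decide (0 < n j) = false) ∨ (l < j ∧ decide (0 < n j) = true) := by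
  unfold rel
  simp only [decide_eq_false_iff_not, decide_eq_true_eq, not_lt]
  rcases lt_trichotomy j l with h | h | h
  · have h1 : q j - q l < 0 := sub_neg.2 (hq h)
    have h2 : ¬ l < j := not_lt.2 h.le
    constructor
    · intro h3
      refine Or.inl ⟨h, ?_⟩
      by_contra h4
      push Not at h4
      have := mul_neg_of_pos_of_neg h4 h1
      linarith
    · rintro (⟨_, h4⟩ | ⟨h4, _⟩)
      · exact mul_pos_of_neg_of_neg (lt_of_le_of_ne h4 (hn j)) h1
      · exact absurd h4 h2
  · subst h; simp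
  · have h1 : 0 < q j - q l := sub_pos.2 (hq h)
    have h2 : ¬ j < l := not_lt.2 h.le
    constructor
    · intro h3
      refine Or.inr ⟨h, ?_⟩
      by_contra h4
      push Not at h4
      have := mul_nonpos_of_nonpos_of_nonneg h4 h1.le
      linarith
    · rintro (⟨h4, _⟩ | ⟨_, h4⟩)
      · exact absurd h4 h2
      · exact mul_pos h4 h1

/-- Opposite signs of the coefficients `p`, `m` of the relation `l`. -/
theorem rel_opp_same {q n : Fin 6 → ℝ} (hq : StrictMono q) (hn : ∀ i, n i ≠ 0) {l p m : Fin 6}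
    (h : (l < p ∧ l < m) ∨ (p < l ∧ m < l)) (hb : decide (0 < n p) ≠ decide (0 < n m)) :
    (0 < rel q n l p ∧ rel q n l m < 0) ∨ (rel q n l p < 0 ∧ 0 < rel q n l m) := by
  have hp := lt_or_gt_of_ne (hn p)
  have hm := lt_or_gt_of_ne (hn m)
  unfold rel
  rcases h with ⟨h1, h2⟩ | ⟨h1, h2⟩
  · have h3 : 0 < q p - q l := sub_pos.2 (hq h1)
    have h4 : 0 < q m - q l := sub_pos.2 (hq h2)
    rcases hp with hp | hp <;> rcases hm with hm | hm
    · exact absurd (by rw [decide_eq_false (not_lt.2 hp.le), decide_eq_false (not_lt.2 hm.le)]) hb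
    · exact Or.inr ⟨mul_neg_of_neg_of_pos hp h3, mul_pos hm h4⟩
    · exact Or.inl ⟨mul_pos hp h3, mul_neg_of_neg_of_pos hm h4⟩
    · exact absurd (by rw [decide_eq_true hp, decide_eq_true hm]) hb
  · have h3 : q p - q l < 0 := sub_neg.2 (hq h1)
    have h4 : q m - q l < 0 := sub_neg.2 (hq h2)
    rcases hp with hp | hp <;> rcases hm with hm | hm
    · exact absurd (by rw [decide_eq_false (not_lt.2 hp.le), decide_eq_false (not_lt.2 hm.le)]) hb
    · exact Or.inl ⟨mul_pos_of_neg_of_neg hp h3, mul_neg_of_pos_of_neg hm h4⟩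
    · exact Or.inr ⟨mul_neg_of_pos_of_neg hp h3, mul_pos_of_neg_of_neg hm h4⟩
    · exact absurd (by rw [decide_eq_true hp, decide_eq_true hm]) hb

theorem rel_opp_across {q n : Fin 6 → ℝ} (hq : StrictMono q) (hn : ∀ i, n i ≠ 0) {l p m : Fin 6}
    (h1 : l < p) (h2 : m < l) (hb : decide (0 < n p) = decide (0 < n m)) :
    (0 < rel q n l p ∧ rel q n l m < 0) ∨ (rel q n l p < 0 ∧ 0 < rel q n l m) := by
  have hp := lt_or_gt_of_ne (hn p)
  have hm := lt_or_gt_of_ne (hn m)
  unfold rel
  have h3 : 0 < q p - q l := sub_pos.2 (hq h1)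
  have h4 : q m - q l < 0 := sub_neg.2 (hq h2)
  rcases hp with hp | hp <;> rcases hm with hm | hm
  · exact Or.inr ⟨mul_neg_of_neg_of_pos hp h3, mul_pos_of_neg_of_neg hm h4⟩
  · rw [decide_eq_false (not_lt.2 hp.le), decide_eq_true hm] at hb
    exact absurd hb (by decide)
  · rw [decide_eq_false (not_lt.2 hm.le), decide_eq_true hp] at hb
    exact absurd hb (by decide)
  · exact Or.inl ⟨mul_pos hp h3, mul_neg_of_pos_of_neg hm h4⟩

/-- SIX POINT LEMMA, affine form. -/
theorem six_affine (q n : Fin 6 → ℝ) (hq : StrictMono q) (hn : ∀ i, n i ≠ 0)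
    (hT : ∀ l, Tri (rel q n l))
    (hc : ∀ l, (univ.filter (fun j => 0 < rel q n l j)).card = 2 ∨
      (univ.filter (fun j => 0 < rel q n l j)).card = 3) : False := by
  have hpat := pattern (fun i => decide (0 < n i)) (by
    intro l
    have h1 := hc l
    have h2 : (univ.filter (fun j => 0 < rel q n l j)) = (univ.filter (fun j : Fin 6 =>
        (j < l ∧ (fun i => decide (0 < n i)) j = false) ∨
        (l < j ∧ (fun i => decide (0 < n i)) j = true))) :=
      Finset.filter_congr (fun j _ => rel_pos_iff hq hn l j)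
    rw [h2] at h1
    exact h1)
  have q01 : q 0 < q 1 := hq (by decide)
  have q12 : q 1 < q 2 := hq (by decide)
  have q23 : q 2 < q 3 := hq (by decide)
  have q34 : q 3 < q 4 := hq (by decide)
  have q45 : q 4 < q 5 := hq (by decide)
  rcases hpat with ⟨h1, h2, h3⟩ | ⟨h1, h2, h3⟩
  · have t0 := (hT 0).opp (p := 3) (m := 4) (by decide)
      (rel_opp_same hq hn (Or.inl ⟨by decide, by decide⟩) h2)
    have t2 := (hT 2).opp (p := 5) (m := 0) (by decide)
      (rel_opp_across hq hn (by decide) (by decide) h3)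
    have t4 := (hT 4).opp (p := 1) (m := 2) (by decide)
      (rel_opp_same hq hn (Or.inr ⟨by decide, by decide⟩) h1)
    rw [Fin.sum_univ_six] at t0 t2 t4
    rw [rel_self, rel_abs_gt hq (show (0 : Fin 6) < 1 by decide),
      rel_abs_gt hq (show (0 : Fin 6) < 2 by decide),
      rel_abs_gt hq (show (0 : Fin 6) < 3 by decide),
      rel_abs_gt hq (show (0 : Fin 6) < 4 by decide),
      rel_abs_gt hq (show (0 : Fin 6) < 5 by decide)] at t0
    rw [rel_self, rel_abs_lt hq (show (0 : Fin 6) < 2 by decide),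
      rel_abs_lt hq (show (1 : Fin 6) < 2 by decide),
      rel_abs_gt hq (show (2 : Fin 6) < 3 by decide),
      rel_abs_gt hq (show (2 : Fin 6) < 4 by decide),
      rel_abs_gt hq (show (2 : Fin 6) < 5 by decide)] at t2
    rw [rel_self, rel_abs_lt hq (show (0 : Fin 6) < 4 by decide),
      rel_abs_lt hq (show (1 : Fin 6) < 4 by decide),
      rel_abs_lt hq (show (2 : Fin 6) < 4 by decide),
      rel_abs_lt hq (show (3 : Fin 6) < 4 by decide),
      rel_abs_gt hq (show (4 : Fin 6) < 5 by decide)] at t4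
    have u0 := mul_lt_mul_of_pos_right t0 (show 0 < q 4 - q 2 by linarith)
    have u2 := mul_lt_mul_of_pos_right t2 (show 0 < q 4 - q 0 by linarith)
    have u4 := mul_lt_mul_of_pos_right t4 (show 0 < q 2 - q 0 by linarith)
    nlinarith [u0, u2, u4]
  · have t0 := (hT 1).opp (p := 4) (m := 5) (by decide)
      (rel_opp_same hq hn (Or.inl ⟨by decide, by decide⟩) h3)
    have t2 := (hT 3).opp (p := 0) (m := 1) (by decide)
      (rel_opp_same hq hn (Or.inr ⟨by decide, by decide⟩) h1)
    have t4 := (hT 5).opp (p := 2) (m := 3) (by decide)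
      (rel_opp_same hq hn (Or.inr ⟨by decide, by decide⟩) h2)
    rw [Fin.sum_univ_six] at t0 t2 t4
    rw [rel_self, rel_abs_lt hq (show (0 : Fin 6) < 1 by decide),
      rel_abs_gt hq (show (1 : Fin 6) < 2 by decide),
      rel_abs_gt hq (show (1 : Fin 6) < 3 by decide),
      rel_abs_gt hq (show (1 : Fin 6) < 4 by decide),
      rel_abs_gt hq (show (1 : Fin 6) < 5 by decide)] at t0
    rw [rel_self, rel_abs_lt hq (show (0 : Fin 6) < 3 by decide),
      rel_abs_lt hq (show (1 : Fin 6) < 3 by decide),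
      rel_abs_lt hq (show (2 : Fin 6) < 3 by decide),
      rel_abs_gt hq (show (3 : Fin 6) < 4 by decide),
      rel_abs_gt hq (show (3 : Fin 6) < 5 by decide)] at t2
    rw [rel_self, rel_abs_lt hq (show (0 : Fin 6) < 5 by decide),
      rel_abs_lt hq (show (1 : Fin 6) < 5 by decide),
      rel_abs_lt hq (show (2 : Fin 6) < 5 by decide),
      rel_abs_lt hq (show (3 : Fin 6) < 5 by decide),
      rel_abs_lt hq (show (4 : Fin 6) < 5 by decide)] at t4
    have u0 := mul_lt_mul_of_pos_right t0 (show 0 < q 5 - q 3 by linarith)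
    have u2 := mul_lt_mul_of_pos_right t2 (show 0 < q 5 - q 1 by linarith)
    have u4 := mul_lt_mul_of_pos_right t4 (show 0 < q 3 - q 1 by linarith)
    nlinarith [u0, u2, u4]

/-- The triangle condition is invariant under permutations. -/
theorem Tri.comp {c : Fin 6 → ℝ} (h : Tri c) (σ : Equiv.Perm (Fin 6)) :
    Tri (fun j => c (σ j)) := by
  intro p m hpm
  have h1 := h (σ p) (σ m) (fun h2 => hpm (σ.injective h2))
  have h2 : ∑ j, |c (σ j)| = ∑ j, |c j| := Equiv.sum_comp σ (fun j => |c j|)
  rw [h2]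
  exact h1

/-- SIX POINT LEMMA for two relations `a`, `b` (a basis of the relation space). -/
theorem six_relations (a b : Fin 6 → ℝ)
    (hM : ∀ l j, l ≠ j → b l * a j - a l * b j ≠ 0)
    (hT : ∀ x y : ℝ, (x ≠ 0 ∨ y ≠ 0) → Tri (fun j => x * a j + y * b j))
    (hc : ∀ l, (univ.filter (fun j => 0 < b l * a j - a l * b j)).card = 2 ∨
      (univ.filter (fun j => 0 < b l * a j - a l * b j)).card = 3) : False := by
  obtain ⟨θ, hθ⟩ := Infinite.exists_notMem_finset (univ.image (fun j => - a j / b j))
  have hn : ∀ j, a j + θ * b j ≠ 0 := by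
    intro j h1
    by_cases h2 : b j = 0
    · rw [h2, mul_zero, add_zero] at h1
      obtain ⟨l, hl⟩ : ∃ l : Fin 6, l ≠ j := exists_ne j
      apply hM l j hl
      rw [h1, h2]; ring
    · apply hθ
      rw [mem_image]
      refine ⟨j, mem_univ j, ?_⟩
      field_simp
      linarith
  obtain ⟨n, hndef⟩ : ∃ n : Fin 6 → ℝ, ∀ j, n j = a j + θ * b j := ⟨_, fun _ => rfl⟩
  obtain ⟨q, hqdef⟩ : ∃ q : Fin 6 → ℝ, ∀ j, q j * n j = b j :=
    ⟨fun j => b j / n j, fun j => div_mul_cancel₀ _ (by rw [hndef]; exact hn j)⟩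
  have hn' : ∀ j, n j ≠ 0 := fun j => by rw [hndef]; exact hn j
  have hM' : ∀ l j, b l * a j - a l * b j = n l * n j * (q l - q j) := by
    intro l j
    have h1 : a j = n j - θ * b j := by rw [hndef]; ring
    have h2 : a l = n l - θ * b l := by rw [hndef]; ring
    rw [h1, h2, ← hqdef l, ← hqdef j]; ring
  have hqinj : Function.Injective q := by
    intro i j hij
    by_contra h1
    apply hM i j h1
    rw [hM', hij]; ring
  set σ := Tuple.sort q with hσ
  have hqs : StrictMono (fun j => q (σ j)) :=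
    (Tuple.monotone_sort q).strictMono_of_injective (fun i j h => σ.injective (hqinj h))
  have hrel : ∀ l j, rel (fun j => q (σ j)) (fun j => n (σ j)) l j =
      (- q (σ l)) * a (σ j) + (1 - θ * q (σ l)) * b (σ j) := by
    intro l j
    unfold rel
    have h1 : n (σ j) = a (σ j) + θ * b (σ j) := hndef _
    have h2 : n (σ j) * q (σ j) = b (σ j) := by rw [mul_comm]; exact hqdef _
    have h3 : n (σ j) * (q (σ j) - q (σ l)) = b (σ j) - n (σ j) * q (σ l) := by
      rw [mul_sub, h2]
    rw [h3, h1]; ring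
  refine six_affine (fun j => q (σ j)) (fun j => n (σ j)) hqs (fun j => hn' _) ?_ ?_
  · intro l
    have h1 := (hT (- q (σ l)) (1 - θ * q (σ l)) (by
      by_cases h2 : q (σ l) = 0
      · exact Or.inr (by rw [h2]; norm_num)
      · exact Or.inl (neg_ne_zero.2 h2))).comp σ
    have h2 : rel (fun j => q (σ j)) (fun j => n (σ j)) l =
        (fun j => (- q (σ l)) * a (σ j) + (1 - θ * q (σ l)) * b (σ j)) := funext (hrel l)
    rw [h2]
    exact h1
  · intro l
    have hcard : (univ.filter (fun j => 0 < b (σ l) * a (σ j) - a (σ l) * b (σ j))).card =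
        (univ.filter (fun j => 0 < b (σ l) * a j - a (σ l) * b j)).card := by
      apply Finset.card_bij (fun j _ => σ j)
      · intro j hj
        simpa using hj
      · intro j _ k _ h; exact σ.injective h
      · intro j hj
        refine ⟨σ.symm j, ?_, by simp⟩
        simpa using hj
    have hsgn : ∀ j, b (σ l) * a (σ j) - a (σ l) * b (σ j) =
        - (n (σ l) * rel (fun j => q (σ j)) (fun j => n (σ j)) l j) := by
      intro j
      rw [hM']
      unfold rel
      ring
    have h0 := hc (σ l)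
    rw [← hcard] at h0
    rcases lt_or_gt_of_ne (hn' (σ l)) with h1 | h1
    · have h2 : (univ.filter (fun j => 0 < rel (fun j => q (σ j)) (fun j => n (σ j)) l j)) =
          (univ.filter (fun j => 0 < b (σ l) * a (σ j) - a (σ l) * b (σ j))) := by
        apply Finset.filter_congr
        intro j _
        rw [hsgn j]
        constructor
        · intro h3
          have := mul_neg_of_neg_of_pos h1 h3
          linarith
        · intro h3
          by_contra h4
          push Not at h4
          have := mul_nonneg_of_nonpos_of_nonpos h1.le h4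
          linarith
      rw [h2]; exact h0
    · have h2 : (univ.filter (fun j => 0 < rel (fun j => q (σ j)) (fun j => n (σ j)) l j)) =
          ((univ.erase l).filter (fun j => ¬ 0 < b (σ l) * a (σ j) - a (σ l) * b (σ j))) := by
        ext j
        simp only [mem_filter, mem_univ, true_and, mem_erase, and_true]
        rw [hsgn j]
        constructor
        · intro h3
          refine ⟨?_, ?_⟩
          · rintro rfl
            unfold rel at h3
            simp at h3
          · have := mul_pos h1 h3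
            linarith
        · rintro ⟨h3, h4⟩
          by_contra h5
          push Not at h5
          have h6 : rel (fun j => q (σ j)) (fun j => n (σ j)) l j ≠ 0 := by
            unfold rel
            refine mul_ne_zero (hn' _) (sub_ne_zero.2 ?_)
            intro h7
            exact h3 (σ.injective (hqinj h7))
          have h7 := lt_of_le_of_ne h5 h6
          have := mul_neg_of_pos_of_neg h1 h7
          linarith
      have h3 : ((univ.erase l).filter
            (fun j => 0 < b (σ l) * a (σ j) - a (σ l) * b (σ j))).card +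
          ((univ.erase l).filter
            (fun j => ¬ 0 < b (σ l) * a (σ j) - a (σ l) * b (σ j))).card = 5 := by
        rw [Finset.card_filter_add_card_filter_not]
        simp
      have h4 : ((univ.erase l).filter
            (fun j => 0 < b (σ l) * a (σ j) - a (σ l) * b (σ j))) =
          (univ.filter (fun j => 0 < b (σ l) * a (σ j) - a (σ l) * b (σ j))) := by
        ext j
        simp only [mem_filter, mem_univ, true_and, mem_erase, and_true]
        constructor
        · exact fun h => h.2
        · intro h5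
          refine ⟨?_, h5⟩
          rintro rfl
          simp only [mul_comm (b (σ j)), sub_self, lt_self_iff_false] at h5
      rw [h4] at h3
      rw [h2]
      omega

/-- SIX POINT LEMMA for six vectors of a space of dimension four, coordinate free: `hgp` says
that any four of them are independent. -/
theorem six_space (w : Fin 6 → Fin 4 → ℝ)
    (hgp : ∀ c : Fin 6 → ℝ, ∑ i, c i • w i = 0 → ∀ i j, i ≠ j → c i = 0 → c j = 0 → c = 0)
    (hT : ∀ c : Fin 6 → ℝ, ∑ i, c i • w i = 0 → c ≠ 0 → Tri c)
    (hc : ∀ c : Fin 6 → ℝ, ∑ i, c i • w i = 0 → c ≠ 0 → ∀ l, c l = 0 →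
      (univ.filter (fun j => 0 < c j)).card = 2 ∨ (univ.filter (fun j => 0 < c j)).card = 3) :
    False := by
  have hex : ∀ l : Fin 6, ∃ c : Fin 6 → ℝ, ∑ i, c i • w i = 0 ∧ c ≠ 0 ∧ c l = 0 := by
    intro l
    let T : (Fin 6 → ℝ) →ₗ[ℝ] (Fin 4 → ℝ) × ℝ :=
      (Fintype.linearCombination ℝ w).prod (LinearMap.proj l)
    have h1 : LinearMap.ker T ≠ ⊥ := by
      apply LinearMap.ker_ne_bot_of_finrank_lt
      simp [Module.finrank_prod]
    obtain ⟨c, hc1, hc2⟩ := (Submodule.ne_bot_iff _).1 h1
    refine ⟨c, ?_, hc2, ?_⟩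
    · have := congrArg Prod.fst (LinearMap.mem_ker.1 hc1)
      simpa [T, Fintype.linearCombination_apply] using this
    · have := congrArg Prod.snd (LinearMap.mem_ker.1 hc1)
      simpa [T] using this
  obtain ⟨a, ha, ha0, hal⟩ := hex 0
  obtain ⟨b, hb, hb0, hbl⟩ := hex 1
  have ha1 : ∀ j, j ≠ 0 → a j ≠ 0 := fun j hj h => ha0 (hgp a ha j 0 hj h hal)
  have hb1 : ∀ j, j ≠ 1 → b j ≠ 0 := fun j hj h => hb0 (hgp b hb j 1 hj h hbl)
  have hcomb : ∀ x y : ℝ, ∑ i, (x * a i + y * b i) • w i = 0 := by
    intro x y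
    have : ∑ i, (x * a i + y * b i) • w i = x • ∑ i, a i • w i + y • ∑ i, b i • w i := by
      rw [Finset.smul_sum, Finset.smul_sum, ← Finset.sum_add_distrib]
      exact Finset.sum_congr rfl (fun i _ => by rw [add_smul, mul_smul, mul_smul])
    rw [this, ha, hb, smul_zero, smul_zero, add_zero]
  have hne : ∀ x y : ℝ, (x ≠ 0 ∨ y ≠ 0) → (fun j => x * a j + y * b j) ≠ 0 := by
    intro x y hxy h
    have h0 := congrFun h 0
    have h1 := congrFun h 1
    simp only [hal, mul_zero, zero_add, hbl, add_zero, Pi.zero_apply] at h0 h1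
    rcases mul_eq_zero.1 h0 with h2 | h2
    · rcases mul_eq_zero.1 h1 with h3 | h3
      · rcases hxy with h4 | h4
        · exact h4 h3
        · exact h4 h2
      · exact ha1 1 (by decide) h3
    · exact hb1 0 (by decide) h2
  have hxy : ∀ l, b l ≠ 0 ∨ - a l ≠ 0 := by
    intro l
    by_cases h : l = 1
    · right; subst h; exact neg_ne_zero.2 (ha1 1 (by decide))
    · left; exact hb1 l h
  have hM : ∀ l j, l ≠ j → b l * a j - a l * b j ≠ 0 := by
    intro l j hlj h
    apply hne (b l) (- a l) (hxy l)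
    refine hgp _ (hcomb _ _) l j hlj ?_ ?_
    · ring
    · linarith
  refine six_relations a b hM (fun x y h => hT _ (hcomb x y) (hne x y h)) ?_
  intro l
  have h1 := hc (fun j => b l * a j + (- a l) * b j) (hcomb _ _) (hne _ _ (hxy l)) l (by ring)
  have h2 : (fun j => 0 < b l * a j - a l * b j) =
      (fun j => 0 < b l * a j + (- a l) * b j) := by
    funext j
    congr 1
    ring
  simp only [h2]
  exact h1

end C1S
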