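import Pool.Agent.C1S.Six

/-! The strict six point lemma in terms of determinants: `C1S.six_det`, `C1S.six_clique`. -/

namespace C1S

open Finset Matrix

/-- Cramer relation of five vectors of `R^4`. -/
theorem cramer5 (v : Fin 5 → Fin 4 → ℝ) :
    ∑ k : Fin 5, ((-1 : ℝ) ^ (k : ℕ) *
      (Matrix.of (fun i => v (k.succAbove i))).det) • v k = 0 := by
  funext t
  rw [Finset.sum_apply]
  simp only [Pi.smul_apply, smul_eq_mul, Pi.zero_apply]
  let A : Matrix (Fin 5) (Fin 5) ℝ := Matrix.of (fun k => Fin.cons (v k t) (v k))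
  have h0 : A.det = 0 := by
    refine Matrix.det_zero_of_column_eq (i := 0) (j := t.succ) (Fin.succ_ne_zero t).symm ?_
    intro k
    simp [A]
  rw [Matrix.det_succ_column_zero] at h0
  rw [← h0]
  apply Finset.sum_congr rfl
  intro k _
  have h1 : A k 0 = v k t := by simp [A]
  have h2 : A.submatrix k.succAbove Fin.succ = Matrix.of (fun i => v (k.succAbove i)) := by
    ext i j
    simp [A]
  rw [h1, h2]
  ring

/-- If the determinants of all sub-quadruples are nonzero, relations with two zero coefficients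
vanish. -/
theorem gp_of_det (w : Fin 6 → Fin 4 → ℝ)
    (hdet : ∀ (l : Fin 6) (k : Fin 5),
      (Matrix.of (fun i => w (l.succAbove (k.succAbove i)))).det ≠ 0)
    (c : Fin 6 → ℝ) (hc : ∑ i, c i • w i = 0) (i j : Fin 6) (hij : i ≠ j)
    (hi : c i = 0) (hj : c j = 0) : c = 0 := by
  obtain ⟨k, rfl⟩ := Fin.exists_succAbove_eq (Ne.symm hij)
  rw [Fin.sum_univ_succAbove _ i, hi, zero_smul, zero_add, Fin.sum_univ_succAbove _ k, hj,
    zero_smul, zero_add] at hc
  have h1 : (fun m => c (i.succAbove (k.succAbove m))) = 0 := by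
    apply Matrix.eq_zero_of_vecMul_eq_zero (hdet i k)
    funext t
    have := congrFun hc t
    rw [Finset.sum_apply] at this
    simpa [Matrix.vecMul, dotProduct] using this
  funext m
  by_cases hm : m = i
  · rw [hm, hi]; rfl
  · obtain ⟨m', rfl⟩ := Fin.exists_succAbove_eq hm
    by_cases hm' : m' = k
    · rw [hm', hj]; rfl
    · obtain ⟨m'', rfl⟩ := Fin.exists_succAbove_eq hm'
      exact congrFun h1 m''

/-- SIX POINT LEMMA with determinants.  The coefficients of the circuit without `l` are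
`(-1)^k det(the other four in increasing order)`. -/
theorem six_det (w : Fin 6 → Fin 4 → ℝ)
    (hdet : ∀ (l : Fin 6) (k : Fin 5),
      (Matrix.of (fun i => w (l.succAbove (k.succAbove i)))).det ≠ 0)
    (hT : ∀ c : Fin 6 → ℝ, ∑ i, c i • w i = 0 → c ≠ 0 → Tri c)
    (hc : ∀ l : Fin 6, (univ.filter (fun k : Fin 5 => 0 < (-1 : ℝ) ^ (k : ℕ) *
        (Matrix.of (fun i => w (l.succAbove (k.succAbove i)))).det)).card = 2 ∨
      (univ.filter (fun k : Fin 5 => 0 < (-1 : ℝ) ^ (k : ℕ) *
        (Matrix.of (fun i => w (l.succAbove (k.succAbove i)))).det)).card = 3) : False := by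
  have hgp := gp_of_det w hdet
  refine six_space w hgp hT ?_
  intro c hcr hc0 l hcl
  obtain ⟨r, hr⟩ : ∃ r : Fin 5 → ℝ, ∀ k, r k = (-1 : ℝ) ^ (k : ℕ) *
      (Matrix.of (fun i => w (l.succAbove (k.succAbove i)))).det := ⟨_, fun _ => rfl⟩
  have hr0 : ∀ k, r k ≠ 0 := by
    intro k
    rw [hr]
    exact mul_ne_zero (pow_ne_zero _ (by norm_num)) (hdet l k)
  have hrs : ∑ k, r k • w (l.succAbove k) = 0 := by
    have := cramer5 (fun k => w (l.succAbove k))
    simp only [hr]
    exact this
  have hcs : ∑ k, c (l.succAbove k) • w (l.succAbove k) = 0 := by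
    rw [Fin.sum_univ_succAbove _ l, hcl, zero_smul, zero_add] at hcr
    exact hcr
  -- `c = t r` on the five
  have hprop : ∀ k, r 0 * c (l.succAbove k) = c (l.succAbove 0) * r k := by
    have h1 : (l.insertNth 0 (fun k => r 0 * c (l.succAbove k) - c (l.succAbove 0) * r k) :
        Fin 6 → ℝ) = 0 := by
      refine hgp _ ?_ l (l.succAbove 0) (Fin.succAbove_ne l 0).symm ?_ ?_
      · rw [Fin.sum_univ_succAbove _ l]
        simp only [Fin.insertNth_apply_same, Fin.insertNth_apply_succAbove, zero_smul, zero_add]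
        have : ∑ k, (r 0 * c (l.succAbove k) - c (l.succAbove 0) * r k) • w (l.succAbove k) =
            r 0 • ∑ k, c (l.succAbove k) • w (l.succAbove k) -
              c (l.succAbove 0) • ∑ k, r k • w (l.succAbove k) := by
          rw [Finset.smul_sum, Finset.smul_sum, ← Finset.sum_sub_distrib]
          exact Finset.sum_congr rfl (fun i _ => by rw [sub_smul, mul_smul, mul_smul])
        rw [this, hcs, hrs, smul_zero, smul_zero, sub_zero]
      · exact Fin.insertNth_apply_same _ _ _
      · rw [Fin.insertNth_apply_succAbove]; ring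
    intro k
    have h2 := congrFun h1 (l.succAbove k)
    rw [Fin.insertNth_apply_succAbove, Pi.zero_apply] at h2
    linarith
  have hcl0 : ∀ k, c (l.succAbove k) ≠ 0 := fun k h =>
    hc0 (hgp c hcr l (l.succAbove k) (Fin.succAbove_ne l k).symm hcl h)
  -- cardinalities
  have hcard : (univ.filter (fun j => 0 < c j)).card =
      (univ.filter (fun k : Fin 5 => 0 < c (l.succAbove k))).card := by
    symm
    apply Finset.card_bij (fun k _ => l.succAbove k)
    · intro k hk
      simpa using hk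
    · intro k _ k' _ h
      exact Fin.succAbove_right_injective h
    · intro j hj
      rw [mem_filter] at hj
      have hjl : j ≠ l := by
        rintro rfl
        rw [hcl] at hj
        exact lt_irrefl _ hj.2
      obtain ⟨k, rfl⟩ := Fin.exists_succAbove_eq hjl
      exact ⟨k, by simpa using hj, rfl⟩
  have h3 := hc l
  simp only [← hr] at h3
  have hdiv : ∀ k, c (l.succAbove k) = (c (l.succAbove 0) / r 0) * r k := by
    intro k
    have := hprop k
    have h0 := hr0 0
    field_simp
    linarith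
  rw [hcard]
  rcases lt_or_gt_of_ne (div_ne_zero (hcl0 0) (hr0 0)) with ht | ht
  · have h4 : (univ.filter (fun k : Fin 5 => 0 < c (l.succAbove k))) =
        (univ.filter (fun k : Fin 5 => ¬ 0 < r k)) := by
      apply Finset.filter_congr
      intro k _
      rw [hdiv k]
      constructor
      · intro h5 h6
        have := mul_neg_of_neg_of_pos ht h6
        linarith
      · intro h5
        push Not at h5
        exact mul_pos_of_neg_of_neg ht (lt_of_le_of_ne h5 (hr0 k))
    have h5 := Finset.card_filter_add_card_filter_not (s := (univ : Finset (Fin 5)))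
      (fun k => 0 < r k)
    rw [Finset.card_univ, Fintype.card_fin] at h5
    rw [h4]
    omega
  · have h4 : (univ.filter (fun k : Fin 5 => 0 < c (l.succAbove k))) =
        (univ.filter (fun k : Fin 5 => 0 < r k)) := by
      apply Finset.filter_congr
      intro k _
      rw [hdiv k]
      constructor
      · intro h5
        exact (mul_pos_iff_of_pos_left ht).1 h5
      · intro h5
        exact mul_pos ht h5
    rw [h4]
    exact h3

theorem two_others : ∀ p m : Fin 6, ∃ i j : Fin 6, i ≠ j ∧ i ≠ p ∧ i ≠ m ∧ j ≠ p ∧ j ≠ m := by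
  decide

/-- Strict (T) from the separating functionals. -/
theorem tri_of_functionals (w : Fin 6 → Fin 4 → ℝ) (f : Fin 6 → Fin 6 → Fin 4 → ℝ)
    (h1 : ∀ i j, i ≠ j → ∑ t, f i j t * w i t = 1)
    (h2 : ∀ i j, i ≠ j → ∑ t, f i j t * w j t = -1)
    (h3 : ∀ i j k, i ≠ j → k ≠ i → k ≠ j → |∑ t, f i j t * w k t| < 1)
    (hgp : ∀ c : Fin 6 → ℝ, ∑ i, c i • w i = 0 → ∀ i j, i ≠ j → c i = 0 → c j = 0 → c = 0)
    (c : Fin 6 → ℝ) (hc : ∑ i, c i • w i = 0) (hc0 : c ≠ 0) : Tri c := by
  intro p m hpm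
  have h4 : ∑ k, c k * (∑ t, f p m t * w k t) = 0 := by
    have : ∑ k, c k * (∑ t, f p m t * w k t) = ∑ t, f p m t * (∑ k, c k • w k) t := by
      simp only [Finset.sum_apply, Pi.smul_apply, smul_eq_mul, Finset.mul_sum]
      rw [Finset.sum_comm]
      exact Finset.sum_congr rfl (fun _ _ => Finset.sum_congr rfl (fun _ _ => by ring))
    rw [this, hc]
    simp
  have hm : m ∈ univ.erase p := mem_erase.2 ⟨Ne.symm hpm, mem_univ m⟩
  have h5 : ∀ g : Fin 6 → ℝ, ∑ k, g k = g p + (g m + ∑ k ∈ (univ.erase p).erase m, g k) := by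
    intro g
    rw [← Finset.add_sum_erase univ g (mem_univ p), ← Finset.add_sum_erase (univ.erase p) g hm]
  rw [h5, h1 p m hpm, h2 p m hpm] at h4
  rw [h5]
  obtain ⟨k0, hk0⟩ : ∃ k0, k0 ∈ (univ.erase p).erase m ∧ c k0 ≠ 0 := by
    by_contra h6
    push Not at h6
    obtain ⟨i, j, hij, hi1, hi2, hj1, hj2⟩ := two_others p m
    exact hc0 (hgp c hc i j hij (h6 i (mem_erase.2 ⟨hi2, mem_erase.2 ⟨hi1, mem_univ i⟩⟩))
      (h6 j (mem_erase.2 ⟨hj2, mem_erase.2 ⟨hj1, mem_univ j⟩⟩)))
  have h6 : - ∑ k ∈ (univ.erase p).erase m, c k * (∑ t, f p m t * w k t) <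
      ∑ k ∈ (univ.erase p).erase m, |c k| := by
    rw [← Finset.sum_neg_distrib]
    apply Finset.sum_lt_sum
    · intro k hk
      have hk1 := (mem_erase.1 hk)
      have hk2 := (mem_erase.1 hk1.2)
      have h7 := h3 p m k hpm hk2.1 hk1.1
      calc -(c k * (∑ t, f p m t * w k t)) ≤ |c k * (∑ t, f p m t * w k t)| := neg_le_abs _
        _ = |c k| * |∑ t, f p m t * w k t| := abs_mul _ _
        _ ≤ |c k| * 1 := mul_le_mul_of_nonneg_left h7.le (abs_nonneg _)
        _ = |c k| := mul_one _
    · refine ⟨k0, hk0.1, ?_⟩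
      have hk1 := (mem_erase.1 hk0.1)
      have hk2 := (mem_erase.1 hk1.2)
      have h7 := h3 p m k0 hpm hk2.1 hk1.1
      calc -(c k0 * (∑ t, f p m t * w k0 t)) ≤ |c k0 * (∑ t, f p m t * w k0 t)| := neg_le_abs _
        _ = |c k0| * |∑ t, f p m t * w k0 t| := abs_mul _ _
        _ < |c k0| * 1 := mul_lt_mul_of_pos_left h7 (abs_pos.2 hk0.2)
        _ = |c k0| := mul_one _
  linarith

/-- SIX POINT LEMMA for a strict clique of `n` vectors of `R^4`: no six members `e 0, .., e 5`
(in general position) have all their circuits split `2 + 3`. -/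
theorem six_clique {n : ℕ} (W : Fin n → Fin 4 → ℝ)
    (hW : ∀ i j, i ≠ j → ∃ f : Fin 4 → ℝ, ∑ t, f t * W i t = 1 ∧ ∑ t, f t * W j t = -1 ∧
      ∀ k, k ≠ i → k ≠ j → |∑ t, f t * W k t| < 1)
    (e : Fin 6 → Fin n) (he : Function.Injective e)
    (hdet : ∀ (l : Fin 6) (k : Fin 5),
      (Matrix.of (fun i => W (e (l.succAbove (k.succAbove i))))).det ≠ 0)
    (hc : ∀ l : Fin 6, (univ.filter (fun k : Fin 5 => 0 < (-1 : ℝ) ^ (k : ℕ) *
        (Matrix.of (fun i => W (e (l.succAbove (k.succAbove i))))).det)).card = 2 ∨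
      (univ.filter (fun k : Fin 5 => 0 < (-1 : ℝ) ^ (k : ℕ) *
        (Matrix.of (fun i => W (e (l.succAbove (k.succAbove i))))).det)).card = 3) : False := by
  have hch : ∀ i j : Fin 6, ∃ f : Fin 4 → ℝ, i ≠ j → (∑ t, f t * W (e i) t = 1 ∧
      ∑ t, f t * W (e j) t = -1 ∧ ∀ k, k ≠ i → k ≠ j → |∑ t, f t * W (e k) t| < 1) := by
    intro i j
    by_cases hij : i = j
    · exact ⟨0, fun h => absurd hij h⟩
    · obtain ⟨f, h1, h2, h3⟩ := hW (e i) (e j) (fun h => hij (he h))
      exact ⟨f, fun _ => ⟨h1, h2, fun k hk1 hk2 =>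
        h3 (e k) (fun h => hk1 (he h)) (fun h => hk2 (he h))⟩⟩
  choose f hf using hch
  have hgp := gp_of_det (fun i => W (e i)) hdet
  exact six_det (fun i => W (e i)) hdet
    (tri_of_functionals (fun i => W (e i)) f (fun i j h => (hf i j h).1)
      (fun i j h => (hf i j h).2.1) (fun i j k h h1 h2 => (hf i j h).2.2 k h1 h2) hgp) hc

end C1S
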