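import Pool.Agent.C1S.Rel

/-!
# At most one of the five minors of a five-element subfamily of a clique in `ℝ⁴` is zero
-/

set_option autoImplicit false

namespace C1S

open Finset

/-! ## the signs -/

/-- The antisymmetric array of signs with the ten given entries. -/
def sg (s01 s02 s03 s04 s12 s13 s14 s23 s24 s34 : Bool) (k l : Fin 5) : Bool :=
  match k, l with
  | 0, 1 => s01
  | 0, 2 => s02
  | 0, 3 => s03
  | 0, 4 => s04
  | 1, 2 => s12
  | 1, 3 => s13
  | 1, 4 => s14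
  | 2, 3 => s23
  | 2, 4 => s24
  | 3, 4 => s34
  | 1, 0 => !s01
  | 2, 0 => !s02
  | 3, 0 => !s03
  | 4, 0 => !s04
  | 2, 1 => !s12
  | 3, 1 => !s13
  | 4, 1 => !s14
  | 3, 2 => !s23
  | 4, 2 => !s24
  | 4, 3 => !s34
  | _, _ => false

/-- The row `k` has both signs. -/
def rw5 (S : Fin 5 → Fin 5 → Bool) (k a b c d : Fin 5) : Bool :=
  !(S k a && S k b && S k c && S k d) && !(!S k a && !S k b && !S k c && !S k d)

/-- The signs of the terms of a three-term relation are not all the same. -/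
def pl5 (S : Fin 5 → Fin 5 → Bool) (i j k l : Fin 5) : Bool :=
  !(((S i j == S k l) == !(S i k == S j l)) && ((S i j == S k l) == (S i l == S j k)))

def ok5 (S : Fin 5 → Fin 5 → Bool) : Bool :=
  rw5 S 0 1 2 3 4 && rw5 S 1 0 2 3 4 && rw5 S 2 0 1 3 4 && rw5 S 3 0 1 2 4 && rw5 S 4 0 1 2 3 &&
    pl5 S 0 1 2 3 && pl5 S 0 1 2 4 && pl5 S 0 1 3 4 && pl5 S 0 2 3 4 && pl5 S 1 2 3 4

/-- The circuits without `y` and without `x` are `p, q | r, x` and `p, q | r, y`. -/
def pX5 (S : Fin 5 → Fin 5 → Bool) : Fin 5 × Fin 5 × Fin 5 × Fin 5 × Fin 5 → Bool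
  | (p, q, r, x, y) => (S y p == S y q) && (S y r == S y x) && (S y p != S y r) &&
      (S x p == S x q) && (S x r == S x y) && (S x p != S x r)

/-- The circuit without `c` is `w | a, b, e`, and the circuit without `b` is `e | a, c, w`. -/
def pY5 (S : Fin 5 → Fin 5 → Bool) : Fin 5 × Fin 5 × Fin 5 × Fin 5 × Fin 5 → Bool
  | (w, e, a, b, c) => (S c a == S c b) && (S c b == S c e) && (S c w != S c a) &&
      (S b a == S b c) && (S b c == S b w) && (S b e != S b a) && ((S b c == S w e) != (S b e == S c w))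

def lX5 : List (Fin 5 × Fin 5 × Fin 5 × Fin 5 × Fin 5) := 
  [(0, 1, 2, 3, 4), (0, 1, 3, 2, 4), (0, 1, 4, 2, 3), (0, 2, 1, 3, 4), (0, 2, 3, 1, 4),
  (0, 2, 4, 1, 3), (0, 4, 1, 2, 3), (0, 4, 2, 1, 3), (0, 4, 3, 1, 2), (1, 2, 0, 3, 4),
  (1, 2, 3, 0, 4), (1, 2, 4, 0, 3), (1, 4, 0, 2, 3), (1, 4, 2, 0, 3), (1, 4, 3, 0, 2),
  (2, 4, 0, 1, 3), (2, 4, 1, 0, 3), (2, 4, 3, 0, 1)]

def lY5 : List (Fin 5 × Fin 5 × Fin 5 × Fin 5 × Fin 5) := 
  [(0, 1, 2, 3, 4), (0, 1, 2, 4, 3), (0, 1, 3, 2, 4), (0, 1, 3, 4, 2), (0, 1, 4, 2, 3),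
  (0, 1, 4, 3, 2), (0, 2, 1, 3, 4), (0, 2, 1, 4, 3), (0, 2, 3, 1, 4), (0, 2, 3, 4, 1),
  (0, 2, 4, 1, 3), (0, 2, 4, 3, 1), (0, 3, 1, 2, 4), (0, 3, 1, 4, 2), (0, 3, 2, 1, 4),
  (0, 3, 2, 4, 1), (0, 3, 4, 1, 2), (0, 3, 4, 2, 1), (0, 4, 1, 2, 3), (0, 4, 1, 3, 2),
  (0, 4, 2, 1, 3), (0, 4, 2, 3, 1), (0, 4, 3, 1, 2), (0, 4, 3, 2, 1), (1, 2, 0, 3, 4),
  (1, 2, 0, 4, 3), (1, 2, 3, 0, 4), (1, 2, 3, 4, 0), (1, 2, 4, 0, 3), (1, 2, 4, 3, 0),
  (1, 3, 0, 2, 4), (1, 3, 0, 4, 2), (1, 3, 2, 0, 4), (1, 3, 2, 4, 0), (1, 3, 4, 0, 2),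
  (1, 3, 4, 2, 0), (1, 4, 0, 2, 3), (1, 4, 0, 3, 2), (1, 4, 2, 0, 3), (1, 4, 2, 3, 0),
  (1, 4, 3, 0, 2), (1, 4, 3, 2, 0), (2, 3, 0, 1, 4), (2, 3, 0, 4, 1), (2, 3, 1, 0, 4),
  (2, 3, 1, 4, 0), (2, 3, 4, 0, 1), (2, 3, 4, 1, 0), (2, 4, 0, 1, 3), (2, 4, 0, 3, 1),
  (2, 4, 1, 0, 3), (2, 4, 1, 3, 0), (2, 4, 3, 0, 1), (2, 4, 3, 1, 0), (3, 4, 0, 1, 2),
  (3, 4, 0, 2, 1), (3, 4, 1, 0, 2), (3, 4, 1, 2, 0), (3, 4, 2, 0, 1), (3, 4, 2, 1, 0)]

set_option maxRecDepth 100000 in
theorem comb5 : ∀ s01 s02 s03 s04 s12 s13 s14 s23 s24 s34 : Bool,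
    (!ok5 (sg s01 s02 s03 s04 s12 s13 s14 s23 s24 s34) ||
      (lX5.any (pX5 (sg s01 s02 s03 s04 s12 s13 s14 s23 s24 s34)) ||
        lY5.any (pY5 (sg s01 s02 s03 s04 s12 s13 s14 s23 s24 s34)))) = true := by
  decide +kernel

def nd (t : Fin 5 × Fin 5 × Fin 5 × Fin 5 × Fin 5) : Bool :=
  decide ([t.1, t.2.1, t.2.2.1, t.2.2.2.1, t.2.2.2.2].Nodup)

theorem ndX : lX5.all nd = true := by decide +kernel

theorem ndY : lY5.all nd = true := by decide +kernel

/-! ## relations of five members -/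

theorem sum5 {a b c d e : Fin 5} (h : [a, b, c, d, e].Nodup) (f : Fin 5 → ℝ) :
    ∑ t, f t = f a + f b + f c + f d + f e := by
  have h1 : [a, b, c, d, e].toFinset = Finset.univ := by
    apply Finset.eq_univ_of_card
    rw [List.toFinset_card_of_nodup h]
    rfl
  rw [← h1, List.sum_toFinset f h]
  simp only [List.map_cons, List.map_nil, List.sum_cons, List.sum_nil]
  ring

variable {W : Fin 5 → Fin 4 → ℝ}

def Rl (W : Fin 5 → Fin 4 → ℝ) (v : Fin 5 → ℝ) : Prop := ∀ a, ∑ k, v k * W k a = 0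

theorem Rl.neg {v : Fin 5 → ℝ} (hv : Rl W v) : Rl W (fun k => - v k) := by
  intro a
  have := hv a
  simp only [neg_mul, Finset.sum_neg_distrib, this, neg_zero]

theorem Rl.comb {v w : Fin 5 → ℝ} (hv : Rl W v) (hw : Rl W w) (x y : ℝ) :
    Rl W (fun k => x * w k - v k * y) := by
  intro a
  have h1 := hv a
  have h2 := hw a
  have : ∑ k, (x * w k - v k * y) * W k a = x * ∑ k, w k * W k a - y * ∑ k, v k * W k a := by
    rw [Finset.mul_sum, Finset.mul_sum, ← Finset.sum_sub_distrib]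
    exact Finset.sum_congr rfl fun k _ => by ring
  rw [this, h1, h2]
  ring

/-- (T) with the sum over all members. -/
theorem T5 (hW : Clique W) {v : Fin 5 → ℝ} (hv : Rl W v) {i j : Fin 5} (hi : 0 < v i) (hj : v j < 0) :
    2 * (v i - v j) ≤ ∑ k, |v k| := by
  have h := Clique.rel hW hv hi hj
  have hij : i ≠ j := fun h => by subst h; linarith
  have hji : j ∈ univ.erase i := Finset.mem_erase.2 ⟨Ne.symm hij, mem_univ j⟩
  rw [← Finset.add_sum_erase _ _ (mem_univ i), ← Finset.add_sum_erase _ _ hji, abs_of_pos hi, abs_of_neg hj]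
  linarith

theorem acyc (hW : Clique W) {v : Fin 5 → ℝ} (hv : Rl W v) (h0 : ∀ k, 0 ≤ v k) : ∀ k, v k = 0 := by
  have h1 := hv (Fin.last 3)
  rw [Finset.sum_eq_zero_iff_of_nonneg (fun k _ => mul_nonneg (h0 k) (hW.1 k).le)] at h1
  intro k
  have h2 := h1 k (mem_univ k)
  rcases mul_eq_zero.1 h2 with h | h
  · exact h
  · exact absurd h (hW.1 k).ne'

theorem acyc' (hW : Clique W) {v : Fin 5 → ℝ} (hv : Rl W v) (h0 : ∀ k, v k ≤ 0) : ∀ k, v k = 0 := by
  have h1 := acyc hW hv.neg (fun k => by have := h0 k; linarith)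
  intro k
  have := h1 k
  linarith

theorem tri_real {x y z : ℝ} (hxy : 0 < x → y < 0 → 2 * (x - y) ≤ |x| + |y| + |z|)
    (hyx : 0 < y → x < 0 → 2 * (y - x) ≤ |x| + |y| + |z|)
    (hxz : 0 < x → z < 0 → 2 * (x - z) ≤ |x| + |y| + |z|)
    (hzx : 0 < z → x < 0 → 2 * (z - x) ≤ |x| + |y| + |z|)
    (hyz : 0 < y → z < 0 → 2 * (y - z) ≤ |x| + |y| + |z|)
    (hzy : 0 < z → y < 0 → 2 * (z - y) ≤ |x| + |y| + |z|) :
    (0 ≤ x ∧ 0 ≤ y ∧ 0 ≤ z) ∨ (x ≤ 0 ∧ y ≤ 0 ∧ z ≤ 0) := by
  rcases lt_trichotomy x 0 with h1 | h1 | h1 <;> rcases lt_trichotomy y 0 with h2 | h2 | h2 <;>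
    rcases lt_trichotomy z 0 with h3 | h3 | h3 <;>
    first
    | exact Or.inl ⟨by linarith, by linarith, by linarith⟩
    | exact Or.inr ⟨by linarith, by linarith, by linarith⟩
    | (exfalso
       simp only [abs_of_neg, abs_of_pos, h1, h2, h3, abs_zero, forall_true_left, lt_self_iff_false,
         not_lt_of_gt, false_implies, implies_true] at hxy hyx hxz hzx hyz hzy
       linarith)

/-- A relation of three members is trivial. -/
theorem tri (hW : Clique W) {v : Fin 5 → ℝ} (hv : Rl W v) {i j : Fin 5} (hij : i ≠ j)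
    (hi : v i = 0) (hj : v j = 0) : ∀ k, v k = 0 := by
  obtain ⟨a, b, c, h⟩ : ∃ a b c : Fin 5, [i, j, a, b, c].Nodup := by
    revert hij; clear hi hj; revert i j; decide
  have hS : ∑ k, |v k| = |v a| + |v b| + |v c| := by
    rw [sum5 h, hi, hj, abs_zero]
    ring
  have hT : ∀ p q, 0 < v p → v q < 0 → 2 * (v p - v q) ≤ |v a| + |v b| + |v c| := by
    intro p q hp hq
    rw [← hS]
    exact T5 hW hv hp hq
  have hall : ∀ k, k = i ∨ k = j ∨ k = a ∨ k = b ∨ k = c := by
    intro k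
    have h1 : [i, j, a, b, c].toFinset = Finset.univ := by
      apply Finset.eq_univ_of_card
      rw [List.toFinset_card_of_nodup h]
      rfl
    have h2 : k ∈ [i, j, a, b, c].toFinset := by rw [h1]; exact mem_univ k
    simpa using h2
  rcases tri_real (hT a b) (hT b a) (hT a c) (hT c a) (hT b c) (hT c b) with ⟨ha, hb, hc⟩ | ⟨ha, hb, hc⟩
  · refine acyc hW hv fun k => ?_
    rcases hall k with h | h | h | h | h <;> rw [h]
    · exact hi.ge
    · exact hj.ge
    · exact ha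
    · exact hb
    · exact hc
  · refine acyc' hW hv fun k => ?_
    rcases hall k with h | h | h | h | h <;> rw [h]
    · exact hi.le
    · exact hj.le
    · exact ha
    · exact hb
    · exact hc

/-! ## the circuits -/

/-- The array of the circuits of a two-dimensional space of relations. -/
def Dd (u v : Fin 5 → ℝ) (k l : Fin 5) : ℝ := u k * v l - u l * v k

theorem Dd_anti (u v : Fin 5 → ℝ) (k l : Fin 5) : Dd u v k l = - Dd u v l k := by
  unfold Dd; ring

theorem Dd_self (u v : Fin 5 → ℝ) (k : Fin 5) : Dd u v k k = 0 := by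
  unfold Dd; ring

theorem Dd_pl (u v : Fin 5 → ℝ) (i j k l : Fin 5) :
    Dd u v i j * Dd u v k l - Dd u v i k * Dd u v j l + Dd u v i l * Dd u v j k = 0 := by
  unfold Dd; ring

theorem Dd_rel {u v : Fin 5 → ℝ} (hu : Rl W u) (hv : Rl W v) (k : Fin 5) : Rl W (Dd u v k) := by
  have := hu.comb hv (u k) (v k)
  exact this

/-- The sign. -/
noncomputable def Sd (u v : Fin 5 → ℝ) (k l : Fin 5) : Bool := decide (0 < Dd u v k l)

theorem t22 (hW : Clique W) {v : Fin 5 → ℝ} (hv : Rl W v) {y p q r x : Fin 5} (h : [y, p, q, r, x].Nodup)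
    (hy : v y = 0) (hp : 0 < v p) (hq : 0 < v q) (hr : v r < 0) (hx : v x < 0) : v p = v q ∧ v r = v x := by
  have hS : ∑ k, |v k| = v p + v q - v r - v x := by
    rw [sum5 h, hy, abs_zero, abs_of_pos hp, abs_of_pos hq, abs_of_neg hr, abs_of_neg hx]
    ring
  have h1 := T5 hW hv hp hr
  have h2 := T5 hW hv hp hx
  have h3 := T5 hW hv hq hr
  have h4 := T5 hW hv hq hx
  constructor <;> linarith

theorem t13 (hW : Clique W) {v : Fin 5 → ℝ} (hv : Rl W v) {c w a b e : Fin 5} (h : [c, w, a, b, e].Nodup)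
    (hc : v c = 0) (hw : 0 < v w) (ha : v a < 0) (hb : v b < 0) (he : v e < 0) : v w ≤ - v e := by
  have hS : ∑ k, |v k| = v w - v a - v b - v e := by
    rw [sum5 h, hc, abs_zero, abs_of_pos hw, abs_of_neg ha, abs_of_neg hb, abs_of_neg he]
    ring
  have h1 := T5 hW hv hw ha
  have h2 := T5 hW hv hw hb
  linarith

section

variable {u v : Fin 5 → ℝ}

theorem Sd_true {k l : Fin 5} : Sd u v k l = true ↔ 0 < Dd u v k l := by
  unfold Sd; simp

theorem Sd_false (hne : ∀ k l, k ≠ l → Dd u v k l ≠ 0) {k l : Fin 5} (hkl : k ≠ l) :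
    Sd u v k l = false ↔ Dd u v k l < 0 := by
  unfold Sd
  rw [decide_eq_false_iff_not, not_lt]
  exact ⟨fun h => lt_of_le_of_ne h (hne k l hkl), fun h => h.le⟩

theorem Sd_eq (hne : ∀ k l, k ≠ l → Dd u v k l ≠ 0) : Sd u v = sg (Sd u v 0 1) (Sd u v 0 2) (Sd u v 0 3)
    (Sd u v 0 4) (Sd u v 1 2) (Sd u v 1 3) (Sd u v 1 4) (Sd u v 2 3) (Sd u v 2 4) (Sd u v 3 4) := by
  have hs : ∀ k, Sd u v k k = false := by
    intro k
    unfold Sd
    rw [Dd_self]
    simp
  have hr : ∀ k l, k ≠ l → Sd u v k l = !Sd u v l k := by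
    intro k l hkl
    rcases lt_or_gt_of_ne (hne k l hkl) with h | h
    · have h1 : 0 < Dd u v l k := by rw [Dd_anti]; linarith
      rw [(Sd_false hne hkl).2 h, Sd_true.2 h1]
      rfl
    · have h1 : Dd u v l k < 0 := by rw [Dd_anti]; linarith
      rw [Sd_true.2 h, (Sd_false hne (Ne.symm hkl)).2 h1]
      rfl
  funext k l
  fin_cases k <;> fin_cases l <;> first | exact hs _ | rfl | exact hr _ _ (by decide)

theorem row_ok (hW : Clique W) (hu : Rl W u) (hv : Rl W v) (hne : ∀ k l, k ≠ l → Dd u v k l ≠ 0)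
    {k a b c d : Fin 5} (h : [k, a, b, c, d].Nodup) : rw5 (Sd u v) k a b c d = true := by
  have hka : k ≠ a := by rintro rfl; simp at h
  have hkb : k ≠ b := by rintro rfl; simp at h
  have hkc : k ≠ c := by rintro rfl; simp at h
  have hkd : k ≠ d := by rintro rfl; simp at h
  have hall : ∀ t, t = k ∨ t = a ∨ t = b ∨ t = c ∨ t = d := by
    intro t
    have h1 : [k, a, b, c, d].toFinset = Finset.univ := by
      apply Finset.eq_univ_of_card
      rw [List.toFinset_card_of_nodup h]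
      rfl
    have h2 : t ∈ [k, a, b, c, d].toFinset := by rw [h1]; exact mem_univ t
    simpa using h2
  have hR := Dd_rel hu hv k
  unfold rw5
  rw [Bool.and_eq_true, Bool.not_eq_true', Bool.not_eq_true']
  constructor
  · rw [Bool.eq_false_iff]
    intro h1
    simp only [Bool.and_eq_true] at h1
    obtain ⟨⟨⟨h1, h2⟩, h3⟩, h4⟩ := h1
    have := acyc hW hR fun t => by
      rcases hall t with e | e | e | e | e <;> rw [e]
      · exact (Dd_self u v k).ge
      · exact (Sd_true.1 h1).le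
      · exact (Sd_true.1 h2).le
      · exact (Sd_true.1 h3).le
      · exact (Sd_true.1 h4).le
    exact hne k a hka (this a)
  · rw [Bool.eq_false_iff]
    intro h1
    simp only [Bool.and_eq_true, Bool.not_eq_true'] at h1
    obtain ⟨⟨⟨h1, h2⟩, h3⟩, h4⟩ := h1
    have := acyc' hW hR fun t => by
      rcases hall t with e | e | e | e | e <;> rw [e]
      · exact (Dd_self u v k).le
      · exact ((Sd_false hne hka).1 h1).le
      · exact ((Sd_false hne hkb).1 h2).le
      · exact ((Sd_false hne hkc).1 h3).le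
      · exact ((Sd_false hne hkd).1 h4).le
    exact hne k a hka (this a)

theorem pl_real {A B C : ℝ} (h : A - B + C = 0) (hA : A ≠ 0) (_hB : B ≠ 0) (_hC : C ≠ 0) :
    ¬ ((0 < A ↔ ¬ 0 < B) ∧ (0 < A ↔ 0 < C)) := by
  rintro ⟨h1, h2⟩
  rcases lt_or_gt_of_ne hA with h3 | h3
  · have h4 : 0 < B := by
      by_contra h5
      exact absurd (h1.2 h5) (not_lt.2 h3.le)
    have h5 : C ≤ 0 := by
      by_contra h6
      exact absurd (h2.2 (not_le.1 h6)) (not_lt.2 h3.le)
    linarith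
  · have h4 : B ≤ 0 := not_lt.1 (h1.1 h3)
    have h5 := h2.1 h3
    linarith

theorem sg_mul (hne : ∀ k l, k ≠ l → Dd u v k l ≠ 0) {a b c d : Fin 5} (hab : a ≠ b) (hcd : c ≠ d) :
    (Sd u v a b == Sd u v c d) = true ↔ 0 < Dd u v a b * Dd u v c d := by
  rcases lt_or_gt_of_ne (hne a b hab) with h1 | h1 <;> rcases lt_or_gt_of_ne (hne c d hcd) with h2 | h2
  · rw [(Sd_false hne hab).2 h1, (Sd_false hne hcd).2 h2]
    simp [mul_pos_of_neg_of_neg h1 h2]
  · rw [(Sd_false hne hab).2 h1, Sd_true.2 h2]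
    simp [(mul_neg_of_neg_of_pos h1 h2).le]
  · rw [(Sd_false hne hcd).2 h2, Sd_true.2 h1]
    simp [(mul_neg_of_pos_of_neg h1 h2).le]
  · rw [Sd_true.2 h1, Sd_true.2 h2]
    simp [mul_pos h1 h2]

theorem pl_ok (hne : ∀ k l, k ≠ l → Dd u v k l ≠ 0) {i j k l : Fin 5} (hij : i ≠ j) (hkl : k ≠ l) (hik : i ≠ k)
    (hjl : j ≠ l) (hil : i ≠ l) (hjk : j ≠ k) : pl5 (Sd u v) i j k l = true := by
  have h := pl_real (Dd_pl u v i j k l) (mul_ne_zero (hne _ _ hij) (hne _ _ hkl))
    (mul_ne_zero (hne _ _ hik) (hne _ _ hjl)) (mul_ne_zero (hne _ _ hil) (hne _ _ hjk))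
  rw [← sg_mul hne hij hkl, ← sg_mul hne hik hjl, ← sg_mul hne hil hjk] at h
  unfold pl5
  generalize (Sd u v i j == Sd u v k l) = a at *
  generalize (Sd u v i k == Sd u v j l) = b at *
  generalize (Sd u v i l == Sd u v j k) = c at *
  revert h
  revert a b c
  decide

/-- Two pairs `p, q | r, x` and `p, q | r, y`. -/
theorem kX (hW : Clique W) (hu : Rl W u) (hv : Rl W v) (hne : ∀ k l, k ≠ l → Dd u v k l ≠ 0)
    {p q r x y : Fin 5} (h : [p, q, r, x, y].Nodup) (hX : pX5 (Sd u v) (p, q, r, x, y) = true) : False := by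
  simp only [List.nodup_cons, List.mem_cons, List.not_mem_nil, or_false, not_or, not_false_eq_true,
    List.nodup_nil, and_true] at h
  obtain ⟨⟨hpq, hpr, hpx, hpy⟩, ⟨hqr, hqx, hqy⟩, ⟨hrx, hry⟩, hxy⟩ := h
  have key : ∀ y x, [y, p, q, r, x].Nodup → (Sd u v y p == Sd u v y q) = true → (Sd u v y r == Sd u v y x) = true →
      (Sd u v y p != Sd u v y r) = true → Dd u v y p = Dd u v y q := by
    intro y x hnd h1 h2 h3
    have hnd' := hnd
    simp only [List.nodup_cons, List.mem_cons, List.not_mem_nil, or_false, not_or, not_false_eq_true,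
      List.nodup_nil, and_true] at hnd'
    obtain ⟨⟨a1, a2, a3, a4⟩, -⟩ := hnd'
    have e1 : Sd u v y p = Sd u v y q := by simpa using h1
    have e2 : Sd u v y r = Sd u v y x := by simpa using h2
    have e3 : Sd u v y p ≠ Sd u v y r := by simpa using h3
    rcases lt_or_gt_of_ne (hne y p a1) with s1 | s1
    · have f1 := (Sd_false hne a1).2 s1
      have f2 := (Sd_false hne a2).1 (by rw [← e1]; exact f1)
      have f3 : Sd u v y r = true := by
        rw [f1] at e3
        cases hh : Sd u v y r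
        · exact absurd hh.symm e3
        · rfl
      have f4 : Sd u v y x = true := by rw [← e2]; exact f3
      have R := (Dd_rel hu hv y).neg
      have := (t22 hW R hnd (by simp [Dd_self]) (by simpa using s1) (by simpa using f2)
        (by simpa using Sd_true.1 f3) (by simpa using Sd_true.1 f4)).1
      simpa using this
    · have f1 := Sd_true.2 s1
      have f2 := Sd_true.1 (by rw [← e1]; exact f1 : Sd u v y q = true)
      have f3 : Sd u v y r = false := by
        rw [f1] at e3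
        cases hh : Sd u v y r
        · rfl
        · exact absurd hh.symm e3
      have f4 : Sd u v y x = false := by rw [← e2]; exact f3
      exact (t22 hW (Dd_rel hu hv y) hnd (Dd_self u v y) s1 f2 ((Sd_false hne a3).1 f3)
        ((Sd_false hne a4).1 f4)).1
  simp only [pX5, Bool.and_eq_true] at hX
  obtain ⟨⟨⟨⟨⟨h1, h2⟩, h3⟩, h4⟩, h5⟩, h6⟩ := hX
  have k1 := key y x (by simp only [List.nodup_cons, List.mem_cons, List.not_mem_nil, or_false, not_or,
    not_false_eq_true, List.nodup_nil, and_true]; tauto) h1 h2 h3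
  have k2 := key x y (by simp only [List.nodup_cons, List.mem_cons, List.not_mem_nil, or_false, not_or,
    not_false_eq_true, List.nodup_nil, and_true]; tauto) h4 h5 h6
  have hP := Dd_pl u v x y p q
  rw [k1, k2] at hP
  have h7 : Dd u v x y * Dd u v p q = 0 := by linarith
  rcases mul_eq_zero.1 h7 with h8 | h8
  · exact hne x y hxy h8
  · exact hne p q hpq h8

/-- Two circuits `w | a, b, e` and `e | a, c, w`. -/
theorem kY (hW : Clique W) (hu : Rl W u) (hv : Rl W v) (hne : ∀ k l, k ≠ l → Dd u v k l ≠ 0)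
    {w e a b c : Fin 5} (h : [w, e, a, b, c].Nodup) (hY : pY5 (Sd u v) (w, e, a, b, c) = true) : False := by
  simp only [List.nodup_cons, List.mem_cons, List.not_mem_nil, or_false, not_or, not_false_eq_true,
    List.nodup_nil, and_true] at h
  obtain ⟨⟨hwe, hwa, hwb, hwc⟩, ⟨hea, heb, hec⟩, ⟨hab, hac⟩, hbc⟩ := h
  have key : ∀ c w a b e, [c, w, a, b, e].Nodup → (Sd u v c a == Sd u v c b) = true →
      (Sd u v c b == Sd u v c e) = true → (Sd u v c w != Sd u v c a) = true →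
      |Dd u v c w| ≤ |Dd u v c e| ∧ 0 < - (Dd u v c w * Dd u v c e) := by
    intro c w a b e hnd h1 h2 h3
    have hnd' := hnd
    simp only [List.nodup_cons, List.mem_cons, List.not_mem_nil, or_false, not_or, not_false_eq_true,
      List.nodup_nil, and_true] at hnd'
    obtain ⟨⟨a1, a2, a3, a4⟩, -⟩ := hnd'
    have e1 : Sd u v c a = Sd u v c b := by simpa using h1
    have e2 : Sd u v c b = Sd u v c e := by simpa using h2
    have e3 : Sd u v c w ≠ Sd u v c a := by simpa using h3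
    rcases lt_or_gt_of_ne (hne c w a1) with s1 | s1
    · have f1 := (Sd_false hne a1).2 s1
      have f2 : Sd u v c a = true := by
        rw [f1] at e3
        cases hh : Sd u v c a
        · exact absurd hh.symm e3
        · rfl
      have f3 : Sd u v c b = true := by rw [← e1]; exact f2
      have f4 : Sd u v c e = true := by rw [← e2]; exact f3
      have R := (Dd_rel hu hv c).neg
      have := t13 hW R hnd (by simp [Dd_self]) (by simpa using s1) (by simpa using Sd_true.1 f2)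
        (by simpa using Sd_true.1 f3) (by simpa using Sd_true.1 f4)
      have g := Sd_true.1 f4
      rw [abs_of_neg s1, abs_of_pos g]
      refine ⟨by simpa using this, ?_⟩
      have := mul_neg_of_neg_of_pos s1 g
      linarith
    · have f1 := Sd_true.2 s1
      have f2 : Sd u v c a = false := by
        rw [f1] at e3
        cases hh : Sd u v c a
        · rfl
        · exact absurd hh.symm e3
      have f3 : Sd u v c b = false := by rw [← e1]; exact f2
      have f4 : Sd u v c e = false := by rw [← e2]; exact f3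
      have g := (Sd_false hne a4).1 f4
      rw [abs_of_pos s1, abs_of_neg g]
      refine ⟨t13 hW (Dd_rel hu hv c) hnd (Dd_self u v c) s1 ((Sd_false hne a2).1 f2)
        ((Sd_false hne a3).1 f3) g, ?_⟩
      have := mul_neg_of_pos_of_neg s1 g
      linarith
  simp only [pY5, Bool.and_eq_true] at hY
  obtain ⟨⟨⟨⟨⟨⟨h1, h2⟩, h3⟩, h4⟩, h5⟩, h6⟩, h7⟩ := hY
  obtain ⟨k1, k3⟩ := key c w a b e (by simp only [List.nodup_cons, List.mem_cons, List.not_mem_nil, or_false,
    not_or, not_false_eq_true, List.nodup_nil, and_true]; tauto) h1 h2 h3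
  obtain ⟨k2, k4⟩ := key b e a c w (by simp only [List.nodup_cons, List.mem_cons, List.not_mem_nil, or_false,
    not_or, not_false_eq_true, List.nodup_nil, and_true]; tauto) h4 h5 h6
  -- `D_bc D_we - D_bw D_ce + D_be D_cw = 0`
  have hP := Dd_pl u v b c w e
  have e7 : (Sd u v b c == Sd u v w e) ≠ (Sd u v b e == Sd u v c w) := by simpa using h7
  have hbe : b ≠ e := Ne.symm heb
  have hcw : c ≠ w := Ne.symm hwc
  have m1 := sg_mul hne hbc hwe
  have m2 := sg_mul hne hbe hcw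
  have hA : Dd u v b c * Dd u v w e ≠ 0 := mul_ne_zero (hne _ _ hbc) (hne _ _ hwe)
  have hC : Dd u v b e * Dd u v c w ≠ 0 := mul_ne_zero (hne _ _ hbe) (hne _ _ hcw)
  have hB : |Dd u v b e * Dd u v c w| ≤ |Dd u v b w * Dd u v c e| := by
    rw [abs_mul, abs_mul]
    exact mul_le_mul k2 k1 (abs_nonneg _) (abs_nonneg _)
  have hBC : 0 < (Dd u v b w * Dd u v c e) * (Dd u v b e * Dd u v c w) := by
    have := mul_pos k3 k4
    nlinarith [this]
  rcases lt_or_gt_of_ne hC with hC' | hC'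
  · have hA' : 0 < Dd u v b c * Dd u v w e := by
      rw [← m1]
      have h8 : (Sd u v b e == Sd u v c w) = false := by
        rw [Bool.eq_false_iff]
        intro h9
        exact absurd (m2.1 h9) (not_lt.2 hC'.le)
      rw [h8] at e7
      cases hh : (Sd u v b c == Sd u v w e)
      · exact absurd hh e7
      · rfl
    have hB' : Dd u v b w * Dd u v c e < 0 := by
      by_contra h9
      nlinarith [mul_nonpos_of_nonneg_of_nonpos (not_lt.1 h9) hC'.le]
    rw [abs_of_neg hC', abs_of_neg hB'] at hB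
    linarith
  · have hA' : Dd u v b c * Dd u v w e < 0 := by
      refine lt_of_le_of_ne ?_ hA
      by_contra h9
      have h10 := m1.2 (not_le.1 h9)
      have h11 := m2.2 hC'
      rw [h10, h11] at e7
      exact e7 rfl
    have hB' : 0 < Dd u v b w * Dd u v c e := by
      by_contra h9
      nlinarith [mul_nonpos_of_nonpos_of_nonneg (not_lt.1 h9) hC'.le]
    rw [abs_of_pos hC', abs_of_pos hB'] at hB
    linarith

end

/-- The relations of five members form a space of dimension at most one. -/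
theorem one_rel (hW : Clique W) {u v : Fin 5 → ℝ} (hu : Rl W u) (hv : Rl W v) {m l : Fin 5} (hml : m ≠ l)
    (hum : u m = 0) (hvl : v l = 0) (hu0 : ∃ k, u k ≠ 0) (hv0 : ∃ k, v k ≠ 0) : False := by
  have hul : ∀ k, k ≠ m → u k ≠ 0 := by
    intro k hk h
    obtain ⟨t, ht⟩ := hu0
    exact ht (tri hW hu hk h hum t)
  have hvl' : ∀ k, k ≠ l → v k ≠ 0 := by
    intro k hk h
    obtain ⟨t, ht⟩ := hv0
    exact ht (tri hW hv hk h hvl t)
  have hne : ∀ k l, k ≠ l → Dd u v k l ≠ 0 := by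
    intro a b hab h
    have h0 : ∀ t, Dd u v a t = 0 := tri hW (Dd_rel hu hv a) hab (Dd_self u v a) h
    have h1 := h0 m
    have h2 := h0 l
    unfold Dd at h1 h2
    rw [hum] at h1
    rw [hvl] at h2
    have h3 : u a = 0 := by
      have : u a * v m = 0 := by linarith
      exact (mul_eq_zero.1 this).resolve_right (hvl' m hml)
    have h4 : v a = 0 := by
      have : u l * v a = 0 := by linarith
      exact (mul_eq_zero.1 this).resolve_left (hul l (Ne.symm hml))
    by_cases ham : a = m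
    · exact hvl' a (by rw [ham]; exact hml) h4
    · exact hul a ham h3
  have hok : ok5 (Sd u v) = true := by
    unfold ok5
    simp only [Bool.and_eq_true]
    refine ⟨⟨⟨⟨⟨⟨⟨⟨⟨?_, ?_⟩, ?_⟩, ?_⟩, ?_⟩, ?_⟩, ?_⟩, ?_⟩, ?_⟩, ?_⟩
    · exact row_ok hW hu hv hne (by decide)
    · exact row_ok hW hu hv hne (by decide)
    · exact row_ok hW hu hv hne (by decide)
    · exact row_ok hW hu hv hne (by decide)
    · exact row_ok hW hu hv hne (by decide)
    all_goals exact pl_ok hne (by decide) (by decide) (by decide) (by decide) (by decide) (by decide)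
  have hc := comb5 (Sd u v 0 1) (Sd u v 0 2) (Sd u v 0 3) (Sd u v 0 4) (Sd u v 1 2) (Sd u v 1 3) (Sd u v 1 4)
    (Sd u v 2 3) (Sd u v 2 4) (Sd u v 3 4)
  rw [← Sd_eq hne, hok] at hc
  simp only [Bool.not_true, Bool.false_or, Bool.or_eq_true, List.any_eq_true] at hc
  rcases hc with ⟨⟨p, q, r, x, y⟩, ht, hX⟩ | ⟨⟨p, q, r, x, y⟩, ht, hX⟩
  · have hn := List.all_eq_true.1 ndX _ ht
    exact kX hW hu hv hne (of_decide_eq_true hn) hX
  · have hn := List.all_eq_true.1 ndY _ ht
    exact kY hW hu hv hne (of_decide_eq_true hn) hX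

/-- In a five-element subfamily of a clique of `ℝ⁴` at most one of the five quadruples is dependent. -/
theorem two_zero {n : ℕ} {W : Fin n → Fin 4 → ℝ} (h : Clique W) (s : Fin 5 → Fin n)
    (hs : Function.Injective s) {i j : Fin 5} (hij : i ≠ j)
    (hi : (mat W (fun r => s (i.succAbove r))).det = 0)
    (hj : (mat W (fun r => s (j.succAbove r))).det = 0) : False := by
  have hW : Clique (fun k => W (s k)) := by
    refine ⟨fun k => h.1 _, fun a b hab => ?_⟩
    obtain ⟨f, h1, h2, h3⟩ := h.2 (s a) (s b) (fun e => hab (hs e))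
    exact ⟨f, h1, h2, fun k => h3 _⟩
  have key : ∀ m : Fin 5, (mat W (fun r => s (m.succAbove r))).det = 0 →
      ∃ u : Fin 5 → ℝ, Rl (fun k => W (s k)) u ∧ u m = 0 ∧ ∃ k, u k ≠ 0 := by
    intro m hm
    obtain ⟨b, hb0, hb⟩ := Matrix.exists_vecMul_eq_zero_iff.2 hm
    have hb' : ∀ a, ∑ r, b r * W (s (m.succAbove r)) a = 0 := by
      intro a
      have := congrFun hb a
      simpa [Matrix.vecMul, dotProduct, mat] using this
    obtain ⟨c, h1, h2, h3⟩ := rel_extend (W := fun k => W (s k)) m.succAbove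
      Fin.succAbove_right_injective b hb'
    refine ⟨c, h1, h3 m fun r => Fin.succAbove_ne m r, ?_⟩
    by_contra hall
    push Not at hall
    exact hb0 (funext fun r => by rw [← h2 r]; exact hall _)
  obtain ⟨u, hu, hum, hu0⟩ := key i hi
  obtain ⟨v, hv, hvl, hv0⟩ := key j hj
  exact one_rel hW hu hv hij hum hvl hu0 hv0

end C1S
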